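import Pool.Agent.R525.MDR.Defs

namespace Pool.Agent.R525.MDR

open SimpleGraph

variable {V : Type*} {G : SimpleGraph V}

theorem minDom_of_indep {I : Set V} (ind : ∀ a ∈ I, ∀ b ∈ I, ¬ G.Adj a b) (dom : Dom G I) :
    MinDom G I := by
  refine ⟨dom, fun v hv hd => ?_⟩
  rcases hd v with h | ⟨w, hw, hvw⟩
  · exact h.2 rfl
  · exact ind v hv w hw.1 hvw

theorem radj {M₁ M₂ : Set V} (h₁ : MinDom G M₁) (h₂ : MinDom G M₂) (v : V)
    (hv2 : v ∈ M₂) (hv1 : v ∉ M₁) (h21 : ∀ w ∈ M₂, w ≠ v → w ∈ M₁)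
    (h12 : ∀ w ∈ M₁, w ∉ M₂ → G.Adj v w) : (R G).Adj ⟨M₁, h₁⟩ ⟨M₂, h₂⟩ := by
  refine ⟨v, Or.inl ⟨?_, ?_⟩⟩
  · ext w
    constructor
    · rintro ⟨hw2, hw1⟩
      by_contra hne
      exact hw1 (h21 w hw2 hne)
    · rintro rfl
      exact ⟨hv2, hv1⟩
  · rintro w ⟨hw1, hw2⟩
    exact h12 w hw1 hw2

theorem cyc3 {A B C : MDS G} (h1 : (R G).Adj A B) (h2 : (R G).Adj B C) (h3 : (R G).Adj C A) :
    ShortCycle G := by
  refine ⟨A, Walk.cons h1 (Walk.cons h2 (Walk.cons h3 Walk.nil)), ?_, by simp⟩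
  have a1 := h1.ne
  have a2 := h2.ne
  have a3 := h3.ne
  rw [Walk.cons_isCycle_iff]
  simp only [Walk.cons_isPath_iff, Walk.support_cons, Walk.support_nil, Walk.edges_cons,
    Walk.edges_nil, List.mem_cons, List.not_mem_nil, Walk.isPath_iff_nil, Walk.nil_nil, Sym2.eq_iff]
  grind

theorem cyc4 {A B C D : MDS G} (h1 : (R G).Adj A B) (h2 : (R G).Adj B C) (h3 : (R G).Adj C D)
    (h4 : (R G).Adj D A) (hAC : A ≠ C) (hBD : B ≠ D) :
    ShortCycle G := by
  refine ⟨A, Walk.cons h1 (Walk.cons h2 (Walk.cons h3 (Walk.cons h4 Walk.nil))), ?_, by simp⟩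
  have a1 := h1.ne
  have a2 := h2.ne
  have a3 := h3.ne
  have a4 := h4.ne
  rw [Walk.cons_isCycle_iff]
  simp only [Walk.cons_isPath_iff, Walk.support_cons, Walk.support_nil, Walk.edges_cons,
    Walk.edges_nil, List.mem_cons, List.not_mem_nil, Walk.isPath_iff_nil, Walk.nil_nil, Sym2.eq_iff]
  grind

theorem cyc5 {A B C D E : MDS G} (h1 : (R G).Adj A B) (h2 : (R G).Adj B C) (h3 : (R G).Adj C D)
    (h4 : (R G).Adj D E) (h5 : (R G).Adj E A) (hAC : A ≠ C) (hAD : A ≠ D) (hBD : B ≠ D)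
    (hBE : B ≠ E) (hCE : C ≠ E) : ShortCycle G := by
  refine ⟨A, Walk.cons h1 (Walk.cons h2 (Walk.cons h3 (Walk.cons h4 (Walk.cons h5 Walk.nil)))),
    ?_, by simp⟩
  have a1 := h1.ne
  have a2 := h2.ne
  have a3 := h3.ne
  have a4 := h4.ne
  have a5 := h5.ne
  rw [Walk.cons_isCycle_iff]
  simp only [Walk.cons_isPath_iff, Walk.support_cons, Walk.support_nil, Walk.edges_cons,
    Walk.edges_nil, List.mem_cons, List.not_mem_nil, Walk.isPath_iff_nil, Walk.nil_nil, Sym2.eq_iff]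
  grind

/-- The subgraph obtained by deleting the closed neighbourhood of `x`. -/
abbrev Del (G : SimpleGraph V) (x : V) : SimpleGraph {w : V // w ≠ x ∧ ¬ G.Adj x w} :=
  G.comap Subtype.val

theorem lift_minDom (x : V) {D : Set {w : V // w ≠ x ∧ ¬ G.Adj x w}} (hD : MinDom (Del G x) D) :
    MinDom G (insert x (Subtype.val '' D)) := by
  constructor
  · intro v
    by_cases hvx : v = x
    · left; rw [hvx]; exact Set.mem_insert _ _
    by_cases hadj : G.Adj x v
    · right; exact ⟨x, Set.mem_insert _ _, hadj.symm⟩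
    · rcases hD.1 ⟨v, hvx, hadj⟩ with h | ⟨w, hw, hvw⟩
      · left; exact Set.mem_insert_of_mem _ ⟨_, h, rfl⟩
      · right; exact ⟨w.1, Set.mem_insert_of_mem _ ⟨w, hw, rfl⟩, hvw⟩
  · intro v hv hdom
    rcases hv with rfl | ⟨v', hv', rfl⟩
    · rcases hdom v with h | ⟨w, hw, hvw⟩
      · exact h.2 rfl
      · rcases hw.1 with rfl | ⟨w', hw', rfl⟩
        · exact hw.2 rfl
        · exact w'.2.2 hvw
    · apply hD.2 v' hv'
      intro u
      rcases hdom u.1 with h | ⟨w, hw, huw⟩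
      · rcases h.1 with h1 | ⟨u', hu', hu'e⟩
        · exact absurd h1 u.2.1
        · left
          have : u' = u := Subtype.ext hu'e
          subst this
          refine ⟨hu', fun hc => h.2 ?_⟩
          rw [Set.mem_singleton_iff] at hc ⊢
          rw [hc]
      · rcases hw.1 with rfl | ⟨w', hw', rfl⟩
        · exact absurd huw.symm u.2.2
        · right
          refine ⟨w', ⟨hw', fun hc => hw.2 ?_⟩, huw⟩
          rw [Set.mem_singleton_iff] at hc ⊢
          rw [hc]

theorem lift_mem_iff (x : V) (D : Set {w : V // w ≠ x ∧ ¬ G.Adj x w})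
    (w : {w : V // w ≠ x ∧ ¬ G.Adj x w}) :
    w.1 ∈ insert x (Subtype.val '' D) ↔ w ∈ D := by
  constructor
  · rintro (h | ⟨w', hw', he⟩)
    · exact absurd h w.2.1
    · have : w' = w := Subtype.ext he
      rwa [← this]
  · intro h
    exact Set.mem_insert_of_mem _ ⟨w, h, rfl⟩

/-- The reconfiguration graph of `G - N[x]` embeds in that of `G`. -/
def liftHom (x : V) : R (Del G x) →g R G where
  toFun M := ⟨insert x (Subtype.val '' M.1), lift_minDom x M.2⟩
  map_rel' := by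
    rintro M₁ M₂ h
    have key : ∀ (A B : MDS (Del G x)) (v : {w : V // w ≠ x ∧ ¬ G.Adj x w}),
        B.1 \ A.1 = {v} → A.1 \ B.1 ⊆ (Del G x).neighborSet v →
        (R G).Adj ⟨insert x (Subtype.val '' A.1), lift_minDom x A.2⟩
          ⟨insert x (Subtype.val '' B.1), lift_minDom x B.2⟩ := by
      intro A B v h1 h2
      have hv : v ∈ B.1 \ A.1 := by rw [h1]; rfl
      apply radj _ _ v.1
      · exact (lift_mem_iff x B.1 v).2 hv.1
      · intro hc; exact hv.2 ((lift_mem_iff x A.1 v).1 hc)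
      · rintro w (rfl | ⟨w', hw', rfl⟩) hne
        · exact Set.mem_insert _ _
        · rw [lift_mem_iff]
          by_contra hc
          have : w' ∈ B.1 \ A.1 := ⟨hw', hc⟩
          rw [h1] at this
          exact hne (by rw [Set.mem_singleton_iff.1 this])
      · rintro w (rfl | ⟨w', hw', rfl⟩) hnot
        · exact absurd (Set.mem_insert _ _) hnot
        · have : w' ∉ B.1 := fun hc => hnot ((lift_mem_iff x B.1 w').2 hc)
          have := h2 ⟨hw', this⟩
          exact this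
    obtain ⟨v, h | h⟩ := h
    · exact key M₁ M₂ v h.1 h.2
    · exact (key M₂ M₁ v h.1 h.2).symm

theorem liftHom_injective (x : V) : Function.Injective (liftHom (G := G) x) := by
  intro A B h
  apply Subtype.ext
  have h' : insert x (Subtype.val '' A.1) = insert x (Subtype.val '' B.1) := congrArg Subtype.val h
  ext w
  rw [← lift_mem_iff x A.1 w, ← lift_mem_iff x B.1 w, h']

theorem ShortCycle.lift (x : V) (h : ShortCycle (Del G x)) : ShortCycle G := by
  obtain ⟨M, p, hp, hl⟩ := h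
  refine ⟨_, p.map (liftHom x), ?_, by rwa [Walk.length_map]⟩
  exact (Walk.isCycle_map_iff_of_injective (liftHom_injective x)).2 hp

end Pool.Agent.R525.MDR
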