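import Pool.Agent.R525.MDR.Basic

namespace Pool.Agent.R525.MDR

open SimpleGraph

variable {V : Type*} {G : SimpleGraph V}

/-- For every `x`, the graph `G - N[x]` is a star plus isolated vertices (or has no edges). -/
def Crit (G : SimpleGraph V) : Prop :=
  ∀ x, ∃ c, ∀ a b, ¬ G.Adj x a → ¬ G.Adj x b → G.Adj a b → a = c ∨ b = c

theorem Crit.share (h : Crit G) {x a b a' b' : V} (ha : ¬ G.Adj x a) (hb : ¬ G.Adj x b)
    (hab : G.Adj a b) (ha' : ¬ G.Adj x a') (hb' : ¬ G.Adj x b') (hab' : G.Adj a' b') :
    a = a' ∨ a = b' ∨ b = a' ∨ b = b' := by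
  obtain ⟨c, hc⟩ := h x
  have h1 := hc a b ha hb hab
  have h2 := hc a' b' ha' hb' hab'
  rcases h1 with rfl | rfl <;> rcases h2 with rfl | rfl <;> tauto

theorem Crit.center (h : Crit G) {x a b b' d e : V} (ha : ¬ G.Adj x a) (hb : ¬ G.Adj x b)
    (hab : G.Adj a b) (hb' : ¬ G.Adj x b') (hab' : G.Adj a b') (hbb : b ≠ b')
    (hd : ¬ G.Adj x d) (he : ¬ G.Adj x e) (hde : G.Adj d e) : d = a ∨ e = a := by
  obtain ⟨c, hc⟩ := h x
  have h1 := hc a b ha hb hab
  have h2 := hc a b' ha hb' hab'
  have h3 := hc d e hd he hde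
  rcases h1 with rfl | rfl
  · exact h3
  · rcases h2 with rfl | h2
    · exact h3
    · exact absurd h2.symm hbb

theorem exists_maxIndep [Finite V] (A : Set V) (hA : ∀ a ∈ A, ∀ b ∈ A, ¬ G.Adj a b) :
    ∃ I : Set V, A ⊆ I ∧ (∀ a ∈ I, ∀ b ∈ I, ¬ G.Adj a b) ∧ Dom G I := by
  classical
  obtain ⟨I, hAI, hI⟩ := Set.Finite.exists_le_maximal
    (s := {I : Set V | ∀ a ∈ I, ∀ b ∈ I, ¬ G.Adj a b}) (Set.toFinite _) hA
  refine ⟨I, hAI, hI.prop, fun v => ?_⟩
  by_contra hc
  push Not at hc
  obtain ⟨hvI, hv⟩ := hc
  have hins : insert v I ∈ {I : Set V | ∀ a ∈ I, ∀ b ∈ I, ¬ G.Adj a b} := by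
    rintro a (rfl | ha) b (rfl | hb)
    · exact G.loopless.irrefl _
    · exact hv b hb
    · exact fun h => hv a ha h.symm
    · exact hI.prop a ha b hb
  have := hI.le_of_ge hins (Set.subset_insert v I)
  exact hvI (this (Set.mem_insert v I))

/-- If `G - N[x]` contains an edge then there are two adjacent maximal independent sets
containing `x`. -/
theorem exists_pair (hcrit : Crit G) {x a b : V} (ha : ¬ G.Adj x a) (hb : ¬ G.Adj x b)
    (hab : G.Adj a b) :
    ∃ (M₁ M₂ : Set V) (h₁ : MinDom G M₁) (h₂ : MinDom G M₂), x ∈ M₁ ∧ x ∈ M₂ ∧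
      (∀ w ∈ M₁, ¬ G.Adj x w) ∧ (∀ w ∈ M₂, ¬ G.Adj x w) ∧
      (R G).Adj ⟨M₁, h₁⟩ ⟨M₂, h₂⟩ := by
  obtain ⟨c, hc⟩ := hcrit x
  -- choose the centre `c` with a neighbour `l`
  obtain ⟨l, hcl, hxc, hxl⟩ : ∃ l, G.Adj c l ∧ ¬ G.Adj x c ∧ ¬ G.Adj x l := by
    rcases hc a b ha hb hab with rfl | rfl
    · exact ⟨b, hab, ha, hb⟩
    · exact ⟨a, hab.symm, hb, ha⟩
  have hxc' : x ≠ c := by rintro rfl; exact hxl hcl
  -- M₁ = non-neighbours of x that are not adjacent to c
  -- M₂ = non-neighbours of x other than c
  have h₁ : MinDom G {w | ¬ G.Adj x w ∧ ¬ G.Adj c w} := by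
    apply minDom_of_indep
    · rintro p ⟨hp1, hp2⟩ q ⟨hq1, hq2⟩ hpq
      rcases hc p q hp1 hq1 hpq with rfl | rfl
      · exact hq2 hpq
      · exact hp2 hpq.symm
    · intro v
      by_cases h1 : G.Adj x v
      · right
        exact ⟨x, ⟨G.loopless.irrefl _, fun h => hxc h.symm⟩, h1.symm⟩
      · by_cases h2 : G.Adj c v
        · right; exact ⟨c, ⟨hxc, G.loopless.irrefl _⟩, h2.symm⟩
        · left; exact ⟨h1, h2⟩
  have h₂ : MinDom G {w | ¬ G.Adj x w ∧ w ≠ c} := by
    apply minDom_of_indep
    · rintro p ⟨hp1, hp2⟩ q ⟨hq1, hq2⟩ hpq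
      rcases hc p q hp1 hq1 hpq with rfl | rfl
      · exact hp2 rfl
      · exact hq2 rfl
    · intro v
      by_cases h1 : G.Adj x v
      · right
        exact ⟨x, ⟨G.loopless.irrefl _, hxc'⟩, h1.symm⟩
      · by_cases h2 : v = c
        · right; subst h2; exact ⟨l, ⟨hxl, hcl.ne'⟩, hcl⟩
        · left; exact ⟨h1, h2⟩
  refine ⟨_, _, h₁, h₂, ⟨G.loopless.irrefl _, fun h => hxc h.symm⟩,
    ⟨G.loopless.irrefl _, hxc'⟩, fun w hw => hw.1, fun w hw => hw.1, ?_⟩
  apply SimpleGraph.Adj.symm
  apply radj h₂ h₁ c
  · exact ⟨hxc, G.loopless.irrefl _⟩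
  · exact fun h => h.2 rfl
  · rintro w ⟨hw1, hw2⟩ hwc
    exact ⟨hw1, hwc⟩
  · rintro w ⟨hw1, hw2⟩ hw3
    by_contra h
    exact hw3 ⟨hw1, h⟩

/-- An edge `uv` dominating all vertices, neither `u` nor `v` universal. -/
theorem dom_edge [Finite V] (hcrit : Crit G) {u v p₀ q₀ : V} (huv : G.Adj u v)
    (hdom : ∀ w, w = u ∨ w = v ∨ G.Adj u w ∨ G.Adj v w)
    (hq₀ : ¬ G.Adj u q₀) (hq₀u : q₀ ≠ u) (hp₀ : ¬ G.Adj v p₀) (hp₀v : p₀ ≠ v) :
    ShortCycle G := by
  have hne := huv.ne
  have hirr : ∀ a, ¬ G.Adj a a := fun a => G.loopless.irrefl a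
  have hsym : ∀ {a b}, G.Adj a b → G.Adj b a := fun h => h.symm
  -- D₀ = {u, v}
  have hD₀ : MinDom G ({u, v} : Set V) := by
    constructor
    · intro w
      rcases hdom w with rfl | rfl | h | h
      · left; simp
      · left; simp
      · right; exact ⟨u, by simp, h.symm⟩
      · right; exact ⟨v, by simp, h.symm⟩
    · intro w hw hd
      rcases hw with rfl | hw
      · -- remove u : p₀ is not dominated
        rcases hd p₀ with h | ⟨z, hz, hpz⟩
        · rcases h.1 with h1 | h1
          · exact h.2 h1
          · exact hp₀v h1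
        · rcases hz.1 with h1 | h1
          · exact hz.2 h1
          · rw [Set.mem_singleton_iff] at h1; subst h1
            exact hp₀ hpz.symm
      · rw [Set.mem_singleton_iff] at hw; subst hw
        rcases hd q₀ with h | ⟨z, hz, hpz⟩
        · rcases h.1 with h1 | h1
          · exact hq₀u h1
          · exact h.2 h1
        · rcases hz.1 with h1 | h1
          · subst h1
            exact hq₀ hpz.symm
          · exact hz.2 h1
  -- if V \ N[u] contains an edge we get a triangle; similarly for v
  by_cases hPv : ∃ a b, ¬ G.Adj u a ∧ ¬ G.Adj u b ∧ G.Adj a b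
  · obtain ⟨a, b, ha, hb, hab⟩ := hPv
    obtain ⟨M₁, M₂, h₁, h₂, hu1, hu2, hn1, hn2, hadj⟩ := exists_pair hcrit ha hb hab
    refine cyc3 (A := ⟨M₁, h₁⟩) (B := ⟨M₂, h₂⟩) (C := ⟨_, hD₀⟩) hadj ?_ ?_
    · apply radj h₂ hD₀ v
      · simp
      · exact fun h => hn2 v h huv
      · rintro w (rfl | hw) hwv
        · exact hu2
        · exact absurd hw hwv
      · intro w hw hw'
        have h1 := hn2 w hw
        rcases hdom w with rfl | rfl | h | h
        · exact absurd (by simp) hw'
        · exact absurd (by simp) hw'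
        · exact absurd h h1
        · exact h
    · apply SimpleGraph.Adj.symm
      apply radj h₁ hD₀ v
      · simp
      · exact fun h => hn1 v h huv
      · rintro w (rfl | hw) hwv
        · exact hu1
        · exact absurd hw hwv
      · intro w hw hw'
        have h1 := hn1 w hw
        rcases hdom w with rfl | rfl | h | h
        · exact absurd (by simp) hw'
        · exact absurd (by simp) hw'
        · exact absurd h h1
        · exact h
  by_cases hPu : ∃ a b, ¬ G.Adj v a ∧ ¬ G.Adj v b ∧ G.Adj a b
  · obtain ⟨a, b, ha, hb, hab⟩ := hPu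
    obtain ⟨M₁, M₂, h₁, h₂, hu1, hu2, hn1, hn2, hadj⟩ := exists_pair hcrit ha hb hab
    refine cyc3 (A := ⟨M₁, h₁⟩) (B := ⟨M₂, h₂⟩) (C := ⟨_, hD₀⟩) hadj ?_ ?_
    · apply radj h₂ hD₀ u
      · simp
      · exact fun h => hn2 u h huv.symm
      · rintro w (rfl | hw) hwv
        · exact absurd rfl hwv
        · rw [Set.mem_singleton_iff] at hw; rw [hw]; exact hu2
      · intro w hw hw'
        have h1 := hn2 w hw
        rcases hdom w with rfl | rfl | h | h
        · exact absurd (by simp) hw'
        · exact absurd (by simp) hw'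
        · exact h
        · exact absurd h h1
    · apply SimpleGraph.Adj.symm
      apply radj h₁ hD₀ u
      · simp
      · exact fun h => hn1 u h huv.symm
      · rintro w (rfl | hw) hwv
        · exact absurd rfl hwv
        · rw [Set.mem_singleton_iff] at hw; rw [hw]; exact hu1
      · intro w hw hw'
        have h1 := hn1 w hw
        rcases hdom w with rfl | rfl | h | h
        · exact absurd (by simp) hw'
        · exact absurd (by simp) hw'
        · exact h
        · exact absurd h h1
  push Not at hPv hPu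
  -- A = non-neighbours of u, B = non-neighbours of v
  have hA : MinDom G {w | ¬ G.Adj u w} := by
    apply minDom_of_indep
    · intro a ha b hb
      exact hPv a b ha hb
    · intro w
      by_cases h : G.Adj u w
      · right; exact ⟨u, hirr u, h.symm⟩
      · left; exact h
  have hB : MinDom G {w | ¬ G.Adj v w} := by
    apply minDom_of_indep
    · intro a ha b hb
      exact hPu a b ha hb
    · intro w
      by_cases h : G.Adj v w
      · right; exact ⟨v, hirr v, h.symm⟩
      · left; exact h
  have hAD : (R G).Adj ⟨_, hA⟩ ⟨_, hD₀⟩ := by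
    apply radj hA hD₀ v
    · simp
    · exact fun h => h huv
    · rintro w (rfl | hw) hwv
      · exact hirr w
      · exact absurd hw hwv
    · intro w hw hw'
      rcases hdom w with rfl | rfl | h | h
      · exact absurd (by simp) hw'
      · exact absurd (by simp) hw'
      · exact absurd h hw
      · exact h
  have hBD : (R G).Adj ⟨_, hB⟩ ⟨_, hD₀⟩ := by
    apply radj hB hD₀ u
    · simp
    · exact fun h => h huv.symm
    · rintro w (rfl | hw) hwv
      · exact absurd rfl hwv
      · rw [Set.mem_singleton_iff] at hw; rw [hw]; exact hirr v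
    · intro w hw hw'
      rcases hdom w with rfl | rfl | h | h
      · exact absurd (by simp) hw'
      · exact absurd (by simp) hw'
      · exact h
      · exact absurd h hw
  have hABne : (⟨_, hA⟩ : MDS G) ≠ ⟨_, hB⟩ := by
    intro h
    have h' : {w | ¬ G.Adj u w} = {w | ¬ G.Adj v w} := congrArg Subtype.val h
    have : u ∈ {w | ¬ G.Adj u w} := hirr u
    rw [h'] at this
    exact this huv.symm
  have hp₀u : G.Adj u p₀ ∨ p₀ = u := by
    rcases hdom p₀ with h | h | h | h
    · right; exact h
    · exact absurd h hp₀v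
    · left; exact h
    · exact absurd h hp₀
  have hup₀ : G.Adj u p₀ := by
    rcases hp₀u with h | h
    · exact h
    · subst h; exact absurd huv.symm hp₀
  have hvq₀ : G.Adj v q₀ := by
    rcases hdom q₀ with h | h | h | h
    · exact absurd h hq₀u
    · subst h; exact absurd huv hq₀
    · exact absurd h hq₀
    · exact h
  by_cases hedge : ∃ p q, G.Adj u p ∧ ¬ G.Adj v p ∧ p ≠ v ∧ G.Adj v q ∧ ¬ G.Adj u q ∧ q ≠ u ∧
      G.Adj p q
  · obtain ⟨p, q, hup, hvp, hpv, hvq, huq, hqu, hpq⟩ := hedge
    by_cases hY : ∃ y, ¬ G.Adj u y ∧ y ≠ u ∧ ¬ G.Adj p y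
    · obtain ⟨y₀, hy₀u, hy₀ne, hy₀p⟩ := hY
      -- neighbours of v among non-neighbours of u
      have hvY : ∀ y, ¬ G.Adj u y → y ≠ u → G.Adj v y := by
        intro y h1 h2
        rcases hdom y with h | h | h | h
        · exact absurd h h2
        · subst h; exact absurd huv h1
        · exact absurd h h1
        · exact h
      have hD₁ : MinDom G {w | w = p ∨ (¬ G.Adj u w ∧ w ≠ u ∧ ¬ G.Adj p w)} := by
        apply minDom_of_indep
        · rintro a (rfl | ⟨ha1, ha2, ha3⟩) b (rfl | ⟨hb1, hb2, hb3⟩)
          · exact hirr _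
          · exact hb3
          · exact fun h => ha3 h.symm
          · exact hPv a b ha1 hb1
        · intro w
          by_contra hc
          simp only [Set.mem_ofPred_eq] at hc
          push Not at hc
          obtain ⟨⟨hwp, hwY⟩, hnd⟩ := hc
          have hpw : ¬ G.Adj p w := fun h => hnd p (Or.inl rfl) h.symm
          have hwu : w ≠ u := by rintro rfl; exact hpw hup.symm
          have huw : G.Adj u w := by
            by_contra h
            exact hpw (hwY h hwu)
          have hy₀w : ¬ G.Adj y₀ w := fun h => hnd y₀ (Or.inr ⟨hy₀u, hy₀ne, hy₀p⟩) h.symm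
          have := hcrit.center (x := y₀) (a := p) (b := u) (b' := q) (d := u) (e := w)
            (fun h => hy₀p h.symm) (fun h => hy₀u h.symm) hup.symm
            (hPv y₀ q hy₀u huq) hpq hqu.symm
            (fun h => hy₀u h.symm) hy₀w huw
          rcases this with h | h
          · subst h; exact hirr _ hup
          · exact hwp h
      have hAD₁ : (R G).Adj ⟨_, hA⟩ ⟨_, hD₁⟩ := by
        apply radj hA hD₁ p
        · left; rfl
        · exact fun h => h hup
        · rintro w (rfl | ⟨h1, h2, h3⟩) hwp
          · exact absurd rfl hwp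
          · exact h1
        · intro w hw hw'
          simp only [Set.mem_ofPred_eq] at hw hw'
          push Not at hw'
          by_cases hwu : w = u
          · rw [hwu]; exact hup.symm
          · exact hw'.2 hw hwu
      have hBD₁ : (R G).Adj ⟨_, hB⟩ ⟨_, hD₁⟩ := by
        by_cases hy1 : ∃ y₁, ¬ G.Adj u y₁ ∧ y₁ ≠ u ∧ ¬ G.Adj p y₁ ∧ y₁ ≠ y₀
        · obtain ⟨y₁, hy₁u, hy₁ne, hy₁p, hy₁y₀⟩ := hy1
          have hBp : ∀ w, ¬ G.Adj v w → w ≠ p → w = v := by
            intro w hvw hwp
            by_contra hwv
            rcases hD₁.1 w with h | ⟨z, hz, hwz⟩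
            · rcases h with h | ⟨h1, h2, h3⟩
              · exact hwp h
              · exact hvw (hvY w h1 h2)
            · have hpw : ¬ G.Adj p w := hPu p w hvp hvw
              rcases hz with rfl | ⟨h1, h2, h3⟩
              · exact hpw hwz.symm
              · have := hcrit.center (x := p) (a := v) (b := y₀) (b' := y₁) (d := w) (e := z)
                  (fun h => hvp h.symm) hy₀p (hvY y₀ hy₀u hy₀ne)
                  hy₁p (hvY y₁ hy₁u hy₁ne) hy₁y₀.symm hpw h3 hwz
                rcases this with h | h
                · exact hwv h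
                · subst h; exact h1 huv
          apply SimpleGraph.Adj.symm
          apply radj hD₁ hB v
          · exact hirr v
          · rintro (h | ⟨h1, h2, h3⟩)
            · exact hpv h.symm
            · exact h1 huv
          · intro w hw hwv
            by_cases hwp : w = p
            · left; exact hwp
            · exact absurd (hBp w hw hwp) hwv
          · rintro w (rfl | ⟨h1, h2, h3⟩) hw
            · exact absurd hvp hw
            · exact hvY w h1 h2
        · push Not at hy1
          apply radj hB hD₁ y₀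
          · right; exact ⟨hy₀u, hy₀ne, hy₀p⟩
          · exact fun h => h (hvY y₀ hy₀u hy₀ne)
          · rintro w (rfl | ⟨h1, h2, h3⟩) hw
            · exact hvp
            · exact absurd (hy1 w h1 h2 h3) hw
          · intro w hw hw'
            by_cases hwv : w = v
            · rw [hwv]; exact (hvY y₀ hy₀u hy₀ne).symm
            · rcases hD₁.1 w with h | ⟨z, hz, hwz⟩
              · exact absurd h hw'
              · have hpw : ¬ G.Adj p w := hPu p w hvp hw
                rcases hz with rfl | ⟨h1, h2, h3⟩
                · exact absurd hwz.symm hpw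
                · rw [← hy1 z h1 h2 h3]; exact hwz.symm
      refine cyc4 hAD.symm hAD₁ hBD₁.symm hBD ?_ hABne
      intro h
      have h' : ({u, v} : Set V) = _ := congrArg Subtype.val h
      have : v ∈ ({u, v} : Set V) := by simp
      rw [h'] at this
      rcases this with h | ⟨h1, h2, h3⟩
      · exact hpv h.symm
      · exact h1 huv
    · push Not at hY
      have hE : MinDom G ({u, p} : Set V) := by
        constructor
        · intro w
          by_cases h1 : w = u
          · left; rw [h1]; simp
          · by_cases h2 : G.Adj u w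
            · right; exact ⟨u, by simp, h2.symm⟩
            · right; exact ⟨p, by simp, (hY w h2 h1).symm⟩
        · intro w hw hd
          rcases hw with rfl | hw
          · rcases hd v with h | ⟨z, hz, hpz⟩
            · rcases h.1 with h1 | h1
              · exact h.2 h1
              · exact hpv h1.symm
            · rcases hz.1 with h1 | h1
              · exact hz.2 h1
              · rw [Set.mem_singleton_iff] at h1; subst h1
                exact hvp hpz
          · rw [Set.mem_singleton_iff] at hw; subst hw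
            rcases hd q with h | ⟨z, hz, hpz⟩
            · rcases h.1 with h1 | h1
              · exact hqu h1
              · exact h.2 h1
            · rcases hz.1 with h1 | h1
              · subst h1
                exact huq hpz.symm
              · exact hz.2 h1
      have hAE : (R G).Adj ⟨_, hA⟩ ⟨_, hE⟩ := by
        apply radj hA hE p
        · simp
        · exact fun h => h hup
        · rintro w (rfl | hw) hwp
          · exact hirr w
          · exact absurd hw hwp
        · intro w hw hw'
          apply hY w hw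
          rintro rfl; exact hw' (by simp)
      have hBE : (R G).Adj ⟨_, hB⟩ ⟨_, hE⟩ := by
        apply radj hB hE u
        · simp
        · exact fun h => h huv.symm
        · rintro w (rfl | hw) hwv
          · exact absurd rfl hwv
          · rw [Set.mem_singleton_iff] at hw; rw [hw]; exact hvp
        · intro w hw hw'
          rcases hdom w with rfl | rfl | h | h
          · exact absurd (by simp) hw'
          · exact huv
          · exact h
          · exact absurd h hw
      refine cyc4 hAD.symm hAE hBE.symm hBD ?_ hABne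
      intro h
      have h' : ({u, v} : Set V) = {u, p} := congrArg Subtype.val h
      have : v ∈ ({u, v} : Set V) := by simp
      rw [h'] at this
      rcases this with h | h
      · exact hne h.symm
      · exact hpv h.symm
  · push Not at hedge
    obtain ⟨I, hSI, hIind, hIdom⟩ := exists_maxIndep (G := G)
      {w | (G.Adj u w ∧ ¬ G.Adj v w ∧ w ≠ v) ∨ (G.Adj v w ∧ ¬ G.Adj u w ∧ w ≠ u)} (by
        rintro a (⟨ha1, ha2, ha3⟩ | ⟨ha1, ha2, ha3⟩) b (⟨hb1, hb2, hb3⟩ | ⟨hb1, hb2, hb3⟩)
        · exact hPu a b ha2 hb2
        · exact hedge a b ha1 ha2 ha3 hb1 hb2 hb3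
        · exact fun h => hedge b a hb1 hb2 hb3 ha1 ha2 ha3 h.symm
        · exact hPv a b ha2 hb2)
    have hI : MinDom G I := minDom_of_indep hIind hIdom
    have huI : u ∉ I := fun h => hIind u h p₀ (hSI (Or.inl ⟨hup₀, hp₀, hp₀v⟩)) hup₀
    have hvI : v ∉ I := fun h => hIind v h q₀ (hSI (Or.inr ⟨hvq₀, hq₀, hq₀u⟩)) hvq₀
    have hIA : (R G).Adj ⟨_, hI⟩ ⟨_, hA⟩ := by
      apply radj hI hA u
      · exact hirr u
      · exact huI
      · intro w hw hwu
        apply hSI
        right
        rcases hdom w with h | h | h | h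
        · exact absurd h hwu
        · subst h; exact absurd huv hw
        · exact absurd h hw
        · exact ⟨h, hw, hwu⟩
      · intro w _ hw
        simpa using hw
    have hIB : (R G).Adj ⟨_, hI⟩ ⟨_, hB⟩ := by
      apply radj hI hB v
      · exact hirr v
      · exact hvI
      · intro w hw hwv
        apply hSI
        left
        rcases hdom w with h | h | h | h
        · subst h; exact absurd huv.symm hw
        · exact absurd h hwv
        · exact ⟨h, hw, hwv⟩
        · exact absurd h hw
      · intro w _ hw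
        simpa using hw
    refine cyc4 hAD.symm hIA.symm hIB hBD ?_ hABne
    intro h
    have h' : ({u, v} : Set V) = I := congrArg Subtype.val h
    have : u ∈ ({u, v} : Set V) := by simp
    rw [h'] at this
    exact huI this

end Pool.Agent.R525.MDR
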