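import Pool.Agent.R525.MDR.CaseI

namespace Pool.Agent.R525.MDR

open SimpleGraph

variable {V : Type*} {G : SimpleGraph V}

theorem ne_of_mem {A B : Set V} {hA : MinDom G A} {hB : MinDom G B} (w : V) (h1 : w ∈ A)
    (h2 : w ∉ B) : (⟨A, hA⟩ : MDS G) ≠ ⟨B, hB⟩ := by
  intro h
  have h' : A = B := congrArg Subtype.val h
  rw [h'] at h1
  exact h2 h1

/-- The structure in which `c` is the centre of the star in `G - N[j₀]`. -/
structure Ctx (G : SimpleGraph V) (j₀ c l₀ : V) : Prop where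
  crit : Crit G
  hc : ∀ a b, ¬ G.Adj j₀ a → ¬ G.Adj j₀ b → G.Adj a b → a = c ∨ b = c
  cl : G.Adj c l₀
  jc : ¬ G.Adj j₀ c
  jl : ¬ G.Adj j₀ l₀
  nc : j₀ ≠ c

namespace Ctx

variable {j₀ c l₀ : V} (X : Ctx G j₀ c l₀)
include X

theorem cj : ¬ G.Adj c j₀ := fun h => X.jc h.symm

theorem LL {a b : V} (ha : ¬ G.Adj j₀ a) (ha' : G.Adj c a) (hb : ¬ G.Adj j₀ b)
    (hb' : G.Adj c b) : ¬ G.Adj a b := by
  intro h
  rcases X.hc a b ha hb h with rfl | rfl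
  · exact G.loopless.irrefl _ ha'
  · exact G.loopless.irrefl _ hb'

theorem JL {a b : V} (ha : ¬ G.Adj j₀ a) (ha2 : a ≠ c) (hb : ¬ G.Adj j₀ b)
    (hb' : G.Adj c b) : ¬ G.Adj a b := by
  intro h
  rcases X.hc a b ha hb h with h | h
  · exact ha2 h
  · rw [h] at hb'; exact G.loopless.irrefl _ hb'

theorem JZ {a z : V} (ha : ¬ G.Adj j₀ a) (ha' : ¬ G.Adj c a) (ha2 : a ≠ c)
    (hz : G.Adj j₀ z) : G.Adj a z := by
  by_contra hn
  have := X.crit.share (x := a) (a := j₀) (b := z) (a' := c) (b' := l₀)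
    (fun h => ha h.symm) hn hz (fun h => ha' h.symm) (X.JL ha ha2 X.jl X.cl) X.cl
  rcases this with h | h | h | h
  · exact X.nc h
  · exact X.jc (by rw [h]; exact X.cl.symm)
  · rw [h] at hz; exact X.jc hz
  · rw [h] at hz; exact X.jl hz

/-- the twin property -/
theorem tw {z l l' w : V} (hz : G.Adj j₀ z) (hl : ¬ G.Adj j₀ l) (hl2 : G.Adj c l)
    (hl' : ¬ G.Adj j₀ l') (hl2' : G.Adj c l') (hzl : ¬ G.Adj z l) (hzl' : ¬ G.Adj z l')
    (hw : G.Adj w l') : G.Adj w l := by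
  by_contra hn
  have := X.crit.share (x := l) (a := w) (b := l') (a' := j₀) (b' := z)
    (fun h => hn h.symm) (X.LL hl hl2 hl' hl2') hw (fun h => hl h.symm) (fun h => hzl h.symm) hz
  rcases this with h | h | h | h
  · rw [h] at hw; exact hl' hw
  · rw [h] at hw; exact hzl' hw
  · rw [h] at hl2'; exact X.cj hl2'
  · rw [h] at hl'; exact hl' hz

theorem ZcI {a b : V} (ha : G.Adj j₀ a) (ha' : ¬ G.Adj c a) (hb : G.Adj j₀ b)
    (hb' : ¬ G.Adj c b) : ¬ G.Adj a b := by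
  intro h
  have := X.crit.center (x := c) (a := j₀) (b := a) (b' := b) (d := a) (e := b)
    X.cj ha' ha hb' hb h.ne ha' hb' h
  rcases this with h | h
  · rw [h] at ha; exact G.loopless.irrefl _ ha
  · rw [h] at hb; exact G.loopless.irrefl _ hb

theorem minM1 : MinDom G {w | ¬ G.Adj j₀ w ∧ ¬ G.Adj c w} := by
  apply minDom_of_indep
  · rintro p ⟨hp1, hp2⟩ q ⟨hq1, hq2⟩ hpq
    rcases X.hc p q hp1 hq1 hpq with rfl | rfl
    · exact hq2 hpq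
    · exact hp2 hpq.symm
  · intro v
    by_cases h1 : G.Adj j₀ v
    · right
      exact ⟨j₀, ⟨G.loopless.irrefl _, X.cj⟩, h1.symm⟩
    · by_cases h2 : G.Adj c v
      · right; exact ⟨c, ⟨X.jc, G.loopless.irrefl _⟩, h2.symm⟩
      · left; exact ⟨h1, h2⟩

theorem minM2 : MinDom G {w | ¬ G.Adj j₀ w ∧ w ≠ c} := by
  apply minDom_of_indep
  · rintro p ⟨hp1, hp2⟩ q ⟨hq1, hq2⟩ hpq
    rcases X.hc p q hp1 hq1 hpq with rfl | rfl
    · exact hp2 rfl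
    · exact hq2 rfl
  · intro v
    by_cases h1 : G.Adj j₀ v
    · right
      exact ⟨j₀, ⟨G.loopless.irrefl _, X.nc⟩, h1.symm⟩
    · by_cases h2 : v = c
      · right; subst h2; exact ⟨l₀, ⟨X.jl, X.cl.ne'⟩, X.cl⟩
      · left; exact ⟨h1, h2⟩

theorem adj21 : (R G).Adj ⟨_, X.minM2⟩ ⟨_, X.minM1⟩ := by
  apply radj X.minM2 X.minM1 c
  · exact ⟨X.jc, G.loopless.irrefl _⟩
  · exact fun h => h.2 rfl
  · rintro w ⟨hw1, hw2⟩ hwc
    exact ⟨hw1, hwc⟩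
  · rintro w ⟨hw1, hw2⟩ hw3
    by_contra h
    exact hw3 ⟨hw1, h⟩

theorem minM3 {z : V} (hz : G.Adj j₀ z) (hcz : ¬ G.Adj c z) :
    MinDom G {w | w = c ∨ (G.Adj j₀ w ∧ ¬ G.Adj c w)} := by
  apply minDom_of_indep
  · rintro p (rfl | ⟨hp1, hp2⟩) q (rfl | ⟨hq1, hq2⟩) hpq
    · exact G.loopless.irrefl _ hpq
    · exact hq2 hpq
    · exact hp2 hpq.symm
    · exact X.ZcI hp1 hp2 hq1 hq2 hpq
  · intro w
    by_cases h1 : w = c
    · left; left; exact h1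
    by_cases h2 : G.Adj c w
    · right; exact ⟨c, Or.inl rfl, h2.symm⟩
    by_cases h3 : G.Adj j₀ w
    · left; right; exact ⟨h3, h2⟩
    · right; exact ⟨z, Or.inr ⟨hz, hcz⟩, X.JZ h3 h2 h1 hz⟩

theorem adj13 {z : V} (hz : G.Adj j₀ z) (hcz : ¬ G.Adj c z) :
    (R G).Adj ⟨_, X.minM1⟩ ⟨_, X.minM3 hz hcz⟩ := by
  by_cases hz' : ∃ z', G.Adj j₀ z' ∧ ¬ G.Adj c z' ∧ z' ≠ z
  · obtain ⟨z', hz'1, hz'2, hne⟩ := hz'
    apply SimpleGraph.Adj.symm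
    apply radj (X.minM3 hz hcz) X.minM1 j₀
    · exact ⟨G.loopless.irrefl _, X.cj⟩
    · rintro (h | ⟨h, _⟩)
      · exact X.nc h
      · exact G.loopless.irrefl _ h
    · rintro w ⟨hw1, hw2⟩ hwj
      left
      by_contra hwc
      have := X.crit.center (x := c) (a := j₀) (b := z) (b' := z') (d := w) (e := z)
        X.cj hcz hz hz'2 hz'1 hne.symm hw2 hcz (X.JZ hw1 hw2 hwc hz)
      rcases this with h | h
      · exact hwj h
      · rw [h] at hz; exact G.loopless.irrefl _ hz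
    · rintro w (rfl | ⟨hw1, hw2⟩) hw
      · exact absurd ⟨X.jc, G.loopless.irrefl _⟩ hw
      · exact hw1
  · push Not at hz'
    apply radj X.minM1 (X.minM3 hz hcz) z
    · right; exact ⟨hz, hcz⟩
    · exact fun h => h.1 hz
    · rintro w (rfl | ⟨hw1, hw2⟩) hwz
      · exact ⟨X.jc, G.loopless.irrefl _⟩
      · exact absurd (hz' w hw1 hw2) hwz
    · rintro w ⟨hw1, hw2⟩ hw
      have hwc : w ≠ c := fun h => hw (Or.inl h)
      exact (X.JZ hw1 hw2 hwc hz).symm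

/-- `z, z'` two distinct neighbours of `j₀`, not adjacent to `l ∈ L`. -/
theorem cen {z z' l : V} (hz : G.Adj j₀ z) (hz' : G.Adj j₀ z') (hne : z ≠ z')
    (hl : ¬ G.Adj j₀ l) (hzl : ¬ G.Adj z l) (hzl' : ¬ G.Adj z' l)
    {d e : V} (hd : ¬ G.Adj l d) (he : ¬ G.Adj l e) (hde : G.Adj d e) : d = j₀ ∨ e = j₀ :=
  X.crit.center (x := l) (a := j₀) (b := z) (b' := z') (d := d) (e := e)
    (fun h => hl h.symm) (fun h => hzl h.symm) hz (fun h => hzl' h.symm) hz' hne hd he hde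

theorem JJ0 {z z' l : V} (hz : G.Adj j₀ z) (hz' : G.Adj j₀ z') (hne : z ≠ z')
    (hl : ¬ G.Adj j₀ l) (hl2 : G.Adj c l) (hzl : ¬ G.Adj z l) (hzl' : ¬ G.Adj z' l)
    {j : V} (hj : ¬ G.Adj j₀ j) (hj' : ¬ G.Adj c j) (hj2 : j ≠ c) : j = j₀ := by
  rcases X.cen hz hz' hne hl hzl hzl' (d := j) (e := z) (fun h => X.JL hj hj2 hl hl2 h.symm)
    (fun h => hzl h.symm) (X.JZ hj hj' hj2 hz) with h | h
  · exact h
  · rw [h] at hz; exact absurd hz (G.loopless.irrefl _)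

theorem noLz {z z' l : V} (hz : G.Adj j₀ z) (hz' : G.Adj j₀ z') (hne : z ≠ z')
    (hl : ¬ G.Adj j₀ l) (hl2 : G.Adj c l) (hzl : ¬ G.Adj z l) (hzl' : ¬ G.Adj z' l)
    {l' : V} (hl' : ¬ G.Adj j₀ l') (hl2' : G.Adj c l') : ¬ G.Adj z l' := by
  intro h
  rcases X.cen hz hz' hne hl hzl hzl' (d := z) (e := l') (fun h => hzl h.symm)
    (X.LL hl hl2 hl' hl2') h with h | h
  · rw [h] at hz; exact absurd hz (G.loopless.irrefl _)
  · rw [h] at hl2'; exact X.cj hl2'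

theorem minM6 {z z' l : V} (hz : G.Adj j₀ z) (hz' : G.Adj j₀ z') (hne : z ≠ z')
    (hl : ¬ G.Adj j₀ l) (hl2 : G.Adj c l) (hzl : ¬ G.Adj z l) (hzl' : ¬ G.Adj z' l) :
    MinDom G {w | (¬ G.Adj j₀ w ∧ G.Adj c w) ∨ (G.Adj j₀ w ∧ ¬ G.Adj w l)} := by
  apply minDom_of_indep
  · rintro p (⟨hp1, hp2⟩ | ⟨hp1, hp2⟩) q (⟨hq1, hq2⟩ | ⟨hq1, hq2⟩) hpq
    · exact X.LL hp1 hp2 hq1 hq2 hpq
    · exact hq2 (X.tw hz hl hl2 hp1 hp2 hzl (X.noLz hz hz' hne hl hl2 hzl hzl' hp1 hp2) hpq.symm)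
    · exact hp2 (X.tw hz hl hl2 hq1 hq2 hzl (X.noLz hz hz' hne hl hl2 hzl hzl' hq1 hq2) hpq)
    · rcases X.cen hz hz' hne hl hzl hzl' (fun h => hp2 h.symm) (fun h => hq2 h.symm) hpq with h | h
      · rw [h] at hp1; exact G.loopless.irrefl _ hp1
      · rw [h] at hq1; exact G.loopless.irrefl _ hq1
  · intro w
    by_cases h1 : G.Adj j₀ w
    · by_cases h2 : G.Adj w l
      · right; exact ⟨l, Or.inl ⟨hl, hl2⟩, h2⟩
      · left; right; exact ⟨h1, h2⟩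
    · by_cases h2 : G.Adj c w
      · left; left; exact ⟨h1, h2⟩
      · by_cases h3 : w = c
        · right; rw [h3]; exact ⟨l, Or.inl ⟨hl, hl2⟩, hl2⟩
        · right; exact ⟨z, Or.inr ⟨hz, hzl⟩, X.JZ h1 h2 h3 hz⟩

theorem adj26 {z z' l : V} (hz : G.Adj j₀ z) (hz' : G.Adj j₀ z') (hne : z ≠ z')
    (hl : ¬ G.Adj j₀ l) (hl2 : G.Adj c l) (hzl : ¬ G.Adj z l) (hzl' : ¬ G.Adj z' l) :
    (R G).Adj ⟨_, X.minM6 hz hz' hne hl hl2 hzl hzl'⟩ ⟨_, X.minM2⟩ := by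
  apply radj _ X.minM2 j₀
  · exact ⟨G.loopless.irrefl _, X.nc⟩
  · rintro (⟨_, h⟩ | ⟨h, _⟩)
    · exact X.cj h
    · exact G.loopless.irrefl _ h
  · rintro w ⟨hw1, hw2⟩ hwj
    left
    refine ⟨hw1, ?_⟩
    by_contra hcw
    exact hwj (X.JJ0 hz hz' hne hl hl2 hzl hzl' hw1 hcw hw2)
  · rintro w (⟨hw1, hw2⟩ | ⟨hw1, hw2⟩) hw
    · exact absurd ⟨hw1, hw2.ne'⟩ hw
    · exact hw1

end Ctx

end Pool.Agent.R525.MDR
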