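import Pool.Agent.R525.MDR.CaseII

namespace Pool.Agent.R525.MDR

open SimpleGraph

variable {V : Type*} {G : SimpleGraph V}

namespace Ctx

variable {j₀ c l₀ : V} (X : Ctx G j₀ c l₀)
include X

theorem caseS1 {z l : V} (hz : G.Adj j₀ z) (hcz : ¬ G.Adj c z) (hl : ¬ G.Adj j₀ l)
    (hl2 : G.Adj c l) (hzl : ¬ G.Adj z l) : ShortCycle G := by
  have hirr : ∀ a, ¬ G.Adj a a := fun a => G.loopless.irrefl a
  have hzc : z ≠ c := by rintro rfl; exact X.jc hz
  have hlc : l ≠ c := hl2.ne'
  have h23 : (⟨_, X.minM2⟩ : MDS G) ≠ ⟨_, X.minM3 hz hcz⟩ := by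
    apply ne_of_mem j₀
    · exact ⟨hirr _, X.nc⟩
    · rintro (h | ⟨h, _⟩)
      · exact X.nc h
      · exact hirr _ h
  by_cases h5 : Dom G {w | w = z ∨ (¬ G.Adj j₀ w ∧ G.Adj c w ∧ ¬ G.Adj z w)}
  · have min5 : MinDom G {w | w = z ∨ (¬ G.Adj j₀ w ∧ G.Adj c w ∧ ¬ G.Adj z w)} := by
      apply minDom_of_indep _ h5
      rintro a (rfl | ⟨ha1, ha2, ha3⟩) b (rfl | ⟨hb1, hb2, hb3⟩)
      · exact hirr _
      · exact hb3
      · exact fun h => ha3 h.symm
      · exact X.LL ha1 ha2 hb1 hb2
    have adj25 : (R G).Adj ⟨_, X.minM2⟩ ⟨_, min5⟩ := by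
      apply radj X.minM2 min5 z
      · left; rfl
      · exact fun h => h.1 hz
      · rintro w (rfl | ⟨h1, h2, h3⟩) hw
        · exact absurd rfl hw
        · exact ⟨h1, h2.ne'⟩
      · rintro w ⟨hw1, hw2⟩ hw3
        by_cases hcw : G.Adj c w
        · by_contra hn
          exact hw3 (Or.inr ⟨hw1, hcw, hn⟩)
        · exact (X.JZ hw1 hcw hw2 hz).symm
    have adj35 : (R G).Adj ⟨_, X.minM3 hz hcz⟩ ⟨_, min5⟩ := by
      by_cases hz' : ∃ z', G.Adj j₀ z' ∧ ¬ G.Adj c z' ∧ z' ≠ z
      · obtain ⟨z', hz'1, hz'2, hne⟩ := hz'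
        have hdz' : ∀ z', G.Adj j₀ z' → ¬ G.Adj c z' → z' ≠ z → ∃ l', ¬ G.Adj j₀ l' ∧ G.Adj c l' ∧
            ¬ G.Adj z l' ∧ G.Adj z' l' := by
          intro z' hz'1 hz'2 hne
          rcases h5 z' with h | ⟨t, ht, hzt⟩
          · rcases h with h | ⟨h1, h2, h3⟩
            · exact absurd h hne
            · exact absurd hz'1 h1
          · rcases ht with rfl | ⟨h1, h2, h3⟩
            · exact absurd hzt (X.ZcI hz'1 hz'2 hz hcz)
            · exact ⟨t, h1, h2, h3, hzt⟩
        obtain ⟨l₁, k1, k2, k3, k4⟩ := hdz' z' hz'1 hz'2 hne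
        have hall : ∀ l', ¬ G.Adj j₀ l' → G.Adj c l' → ¬ G.Adj z l' → G.Adj z' l' :=
          fun l' a1 a2 a3 => X.tw hz a1 a2 k1 k2 a3 k3 k4
        have huniq : ∀ l', ¬ G.Adj j₀ l' → G.Adj c l' → ¬ G.Adj z l' → l' = l := by
          intro l' a1 a2 a3
          by_contra hn
          have := X.crit.center (x := z) (a := c) (b := l') (b' := l) (d := z') (e := l)
            (fun h => hcz h.symm) a3 a2 hzl hl2 hn (X.ZcI hz hcz hz'1 hz'2) hzl
            (hall l hl hl2 hzl)
          rcases this with h | h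
          · rw [h] at hz'1; exact X.jc hz'1
          · exact hlc h
        apply radj (X.minM3 hz hcz) min5 l
        · right; exact ⟨hl, hl2, hzl⟩
        · rintro (h | ⟨h, _⟩)
          · exact hlc h
          · exact hl h
        · rintro w (rfl | ⟨h1, h2, h3⟩) hw
          · right; exact ⟨hz, hcz⟩
          · exact absurd (huniq w h1 h2 h3) hw
        · rintro w (rfl | ⟨hw1, hw2⟩) hw
          · exact hl2.symm
          · have hwz : w ≠ z := fun h => hw (Or.inl h)
            obtain ⟨l', a1, a2, a3, a4⟩ := hdz' w hw1 hw2 hwz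
            rw [huniq l' a1 a2 a3] at a4
            exact a4.symm
      · push Not at hz'
        apply SimpleGraph.Adj.symm
        apply radj min5 (X.minM3 hz hcz) c
        · left; rfl
        · rintro (h | ⟨h1, h2, h3⟩)
          · exact hzc h.symm
          · exact hirr _ h2
        · rintro w (rfl | ⟨hw1, hw2⟩) hw
          · exact absurd rfl hw
          · left; exact hz' w hw1 hw2
        · rintro w (rfl | ⟨h1, h2, h3⟩) hw
          · exact absurd (Or.inr ⟨hz, hcz⟩) hw
          · exact h2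
    refine cyc4 X.adj21 (X.adj13 hz hcz) adj35 adj25.symm h23 ?_
    apply ne_of_mem c
    · exact ⟨X.jc, hirr _⟩
    · rintro (h | ⟨h1, h2, h3⟩)
      · exact hzc h.symm
      · exact hirr _ h2
  · -- M₅ not dominating
    obtain ⟨z', hz'n, hz'd⟩ : ∃ z', z' ∉ {w | w = z ∨ (¬ G.Adj j₀ w ∧ G.Adj c w ∧ ¬ G.Adj z w)} ∧
        ∀ t ∈ {w | w = z ∨ (¬ G.Adj j₀ w ∧ G.Adj c w ∧ ¬ G.Adj z w)}, ¬ G.Adj z' t := by
      unfold Dom at h5
      push Not at h5
      exact h5
    have hz'z : ¬ G.Adj z' z := hz'd z (Or.inl rfl)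
    have hz'l : ¬ G.Adj z' l := hz'd l (Or.inr ⟨hl, hl2, hzl⟩)
    have hne : z ≠ z' := fun h => hz'n (Or.inl h.symm)
    have hz' : G.Adj j₀ z' := by
      by_contra hj
      by_cases h1 : z' = c
      · rw [h1] at hz'l; exact hz'l hl2
      by_cases h2 : G.Adj c z'
      · exact hz'n (Or.inr ⟨hj, h2, fun h => hz'z h.symm⟩)
      · exact hz'z (X.JZ hj h2 h1 hz)
    have min6 := X.minM6 hz hz' hne hl hl2 hzl hz'l
    have adj26 := X.adj26 hz hz' hne hl hl2 hzl hz'l
    have adj36 : (R G).Adj ⟨_, X.minM3 hz hcz⟩ ⟨_, min6⟩ := by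
      by_cases hsub : ∀ w, G.Adj j₀ w → ¬ G.Adj c w → ¬ G.Adj w l
      · apply SimpleGraph.Adj.symm
        apply radj min6 (X.minM3 hz hcz) c
        · left; rfl
        · rintro (⟨_, h⟩ | ⟨h, _⟩)
          · exact hirr _ h
          · exact X.jc h
        · rintro w (rfl | ⟨hw1, hw2⟩) hw
          · exact absurd rfl hw
          · right; exact ⟨hw1, hsub w hw1 hw2⟩
        · rintro w (⟨h1, h2⟩ | ⟨h1, h2⟩) hw
          · exact h2
          · by_contra hn
            exact hw (Or.inr ⟨h1, hn⟩)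
      · push Not at hsub
        obtain ⟨z₁, a1, a2, a3⟩ := hsub
        have huniq : ∀ l', ¬ G.Adj j₀ l' → G.Adj c l' → l' = l := by
          intro l' b1 b2
          by_contra hn
          have := X.crit.center (x := z) (a := c) (b := l') (b' := l) (d := z₁) (e := l)
            (fun h => hcz h.symm) (X.noLz hz hz' hne hl hl2 hzl hz'l b1 b2) b2 hzl hl2 hn
            (X.ZcI hz hcz a1 a2) hzl a3
          rcases this with h | h
          · rw [h] at a1; exact X.jc a1
          · exact hlc h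
        have hZc : ∀ w, G.Adj j₀ w → ¬ G.Adj w l → ¬ G.Adj c w := by
          intro w b1 b2 b3
          have hzw : ¬ G.Adj z w := by
            intro h
            rcases X.cen hz hz' hne hl hzl hz'l (fun h => hzl h.symm) (fun h => b2 h.symm) h with h | h
            · rw [h] at hz; exact hirr _ hz
            · rw [h] at b1; exact hirr _ b1
          have := X.crit.share (x := z) (a := l) (b := z₁) (a' := c) (b' := w)
            hzl (X.ZcI hz hcz a1 a2) a3.symm (fun h => hcz h.symm) hzw b3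
          rcases this with h | h | h | h
          · exact hlc h
          · rw [← h] at b1; exact hl b1
          · rw [h] at a1; exact X.jc a1
          · rw [h] at a3; exact b2 a3
        apply radj (X.minM3 hz hcz) min6 l
        · left; exact ⟨hl, hl2⟩
        · rintro (h | ⟨h, _⟩)
          · exact hlc h
          · exact hl h
        · rintro w (⟨h1, h2⟩ | ⟨h1, h2⟩) hw
          · exact absurd (huniq w h1 h2) hw
          · right; exact ⟨h1, hZc w h1 h2⟩
        · rintro w (rfl | ⟨hw1, hw2⟩) hw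
          · exact hl2.symm
          · by_contra hn
            exact hw (Or.inr ⟨hw1, fun h => hn h.symm⟩)
    refine cyc4 X.adj21 (X.adj13 hz hcz) adj36 adj26 h23 ?_
    apply ne_of_mem c
    · exact ⟨X.jc, hirr _⟩
    · rintro (⟨_, h⟩ | ⟨h, _⟩)
      · exact hirr _ h
      · exact X.jc h

end Ctx

end Pool.Agent.R525.MDR
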