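import Pool.Agent.R525.MDR.CaseIIb

namespace Pool.Agent.R525.MDR

open SimpleGraph

variable {V : Type*} {G : SimpleGraph V}

namespace Ctx

variable {j₀ c l₀ : V} (X : Ctx G j₀ c l₀)
include X

theorem caseS2 {z w : V} (hz : G.Adj j₀ z) (hcz : ¬ G.Adj c z)
    (S2 : ∀ z l, G.Adj j₀ z → ¬ G.Adj c z → ¬ G.Adj j₀ l → G.Adj c l → G.Adj z l)
    (hw : G.Adj j₀ w) (hcw : G.Adj c w) (hzw : ¬ G.Adj z w) (hwl : ¬ G.Adj w l₀) :
    ShortCycle G := by
  have hirr : ∀ a, ¬ G.Adj a a := fun a => G.loopless.irrefl a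
  have hzc : z ≠ c := by rintro rfl; exact X.jc hz
  have hwc : w ≠ c := hcw.ne'
  have hjl := X.jl
  have hcl := X.cl
  have hlc : l₀ ≠ c := hcl.ne'
  have hwz : w ≠ z := fun h => hcz (h ▸ hcw)
  have hzl : G.Adj z l₀ := S2 z l₀ hz hcz hjl hcl
  -- the abstract closing argument
  have close : ∀ (N E : Set V) (hN : MinDom G N) (hE : MinDom G E),
      (R G).Adj ⟨_, X.minM2⟩ ⟨N, hN⟩ → (R G).Adj ⟨N, hN⟩ ⟨E, hE⟩ →
      (R G).Adj ⟨E, hE⟩ ⟨_, X.minM3 hz hcz⟩ → c ∉ N → c ∉ E → j₀ ∉ E → ShortCycle G := by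
    intro N E hN hE h1 h2 h3 hcN hcE hjE
    refine cyc5 X.adj21.symm h1 h2 h3 (X.adj13 hz hcz).symm ?_ ?_ ?_ ?_ ?_
    · exact ne_of_mem c ⟨X.jc, hirr _⟩ hcN
    · exact ne_of_mem c ⟨X.jc, hirr _⟩ hcE
    · exact ne_of_mem j₀ ⟨hirr _, X.nc⟩ hjE
    · refine ne_of_mem j₀ ⟨hirr _, X.nc⟩ ?_
      rintro (h | ⟨h, _⟩)
      · exact X.nc h
      · exact hirr _ h
    · exact (ne_of_mem c (Or.inl rfl) hcN).symm
  -- facts on `E_b`
  have facts_b : Dom G {t | t = w ∨ (G.Adj j₀ t ∧ ¬ G.Adj c t ∧ ¬ G.Adj w t)} →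
      ∃ hE : MinDom G {t | t = w ∨ (G.Adj j₀ t ∧ ¬ G.Adj c t ∧ ¬ G.Adj w t)},
        (R G).Adj ⟨_, hE⟩ ⟨_, X.minM3 hz hcz⟩ := by
    intro hd
    have hE : MinDom G {t | t = w ∨ (G.Adj j₀ t ∧ ¬ G.Adj c t ∧ ¬ G.Adj w t)} := by
      apply minDom_of_indep _ hd
      rintro a (rfl | ⟨ha1, ha2, ha3⟩) b (rfl | ⟨hb1, hb2, hb3⟩)
      · exact hirr _
      · exact hb3
      · exact fun h => ha3 h.symm
      · exact X.ZcI ha1 ha2 hb1 hb2
    refine ⟨hE, ?_⟩
    apply SimpleGraph.Adj.symm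
    apply radj (X.minM3 hz hcz) hE w
    · left; rfl
    · rintro (h | ⟨_, h⟩)
      · exact hwc h
      · exact h hcw
    · rintro t (rfl | ⟨h1, h2, h3⟩) ht
      · exact absurd rfl ht
      · right; exact ⟨h1, h2⟩
    · rintro t (rfl | ⟨h1, h2⟩) ht
      · exact hcw.symm
      · by_contra hn
        exact ht (Or.inr ⟨h1, h2, hn⟩)
  have notEb : ¬ Dom G {t | t = w ∨ (G.Adj j₀ t ∧ ¬ G.Adj c t ∧ ¬ G.Adj w t)} →
      ∃ w', G.Adj j₀ w' ∧ G.Adj c w' ∧ ¬ G.Adj z w' ∧ w' ≠ w := by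
    intro hd
    unfold Dom at hd
    push Not at hd
    obtain ⟨w', hw'n, hw'd⟩ := hd
    have h1 : ¬ G.Adj w' w := hw'd w (Or.inl rfl)
    have h2 : ¬ G.Adj w' z := hw'd z (Or.inr ⟨hz, hcz, fun h => hzw h.symm⟩)
    have h3 : w' ≠ w := fun h => hw'n (Or.inl h)
    have h4 : G.Adj j₀ w' := by
      by_contra hj
      by_cases a1 : w' = c
      · rw [a1] at h1; exact h1 hcw
      by_cases a2 : G.Adj c w'
      · exact h2 (S2 z w' hz hcz hj a2).symm
      · exact h1 (X.JZ hj a2 a1 hw)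
    refine ⟨w', h4, ?_, fun h => h2 h.symm, h3⟩
    by_contra hc'
    exact hw'n (Or.inr ⟨h4, hc', fun h => h1 h.symm⟩)
  have facts_a : ∀ w', G.Adj j₀ w' → G.Adj c w' → ¬ G.Adj z w' → w' ≠ w →
      (∀ a b, G.Adj j₀ a → G.Adj c a → ¬ G.Adj z a → G.Adj j₀ b → G.Adj c b → ¬ G.Adj z b →
        ¬ G.Adj a b) ∧
      (∀ a b, G.Adj j₀ a → ¬ G.Adj c a → G.Adj j₀ b → G.Adj c b → ¬ G.Adj z b → ¬ G.Adj a b) ∧
      ∃ hE : MinDom G {t | G.Adj j₀ t ∧ (¬ G.Adj c t ∨ ¬ G.Adj z t)},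
        (R G).Adj ⟨_, hE⟩ ⟨_, X.minM3 hz hcz⟩ := by
    intro w' a1 a2 a3 a4
    have cz : ∀ d e, ¬ G.Adj z d → ¬ G.Adj z e → G.Adj d e → d = c ∨ e = c := fun d e hd he hde =>
      X.crit.center (x := z) (a := c) (b := w) (b' := w') (d := d) (e := e)
        (fun h => hcz h.symm) hzw hcw a3 a2 a4.symm hd he hde
    have WW : ∀ a b, G.Adj j₀ a → G.Adj c a → ¬ G.Adj z a → G.Adj j₀ b → G.Adj c b →
        ¬ G.Adj z b → ¬ G.Adj a b := by
      intro a b b1 b2 b3 b4 b5 b6 h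
      rcases cz a b b3 b6 h with h | h
      · rw [h] at b1; exact X.jc b1
      · rw [h] at b4; exact X.jc b4
    have ZW : ∀ a b, G.Adj j₀ a → ¬ G.Adj c a → G.Adj j₀ b → G.Adj c b → ¬ G.Adj z b →
        ¬ G.Adj a b := by
      intro a b b1 b2 b3 b4 b5 h
      rcases cz a b (X.ZcI hz hcz b1 b2) b5 h with h | h
      · rw [h] at b1; exact X.jc b1
      · rw [h] at b3; exact X.jc b3
    refine ⟨WW, ZW, ?_⟩
    have hE : MinDom G {t | G.Adj j₀ t ∧ (¬ G.Adj c t ∨ ¬ G.Adj z t)} := by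
      apply minDom_of_indep
      · rintro a ⟨ha1, ha2⟩ b ⟨hb1, hb2⟩
        by_cases hca : G.Adj c a <;> by_cases hcb : G.Adj c b
        · exact WW a b ha1 hca (by tauto) hb1 hcb (by tauto)
        · exact fun h => ZW b a hb1 hcb ha1 hca (by tauto) h.symm
        · exact ZW a b ha1 hca hb1 hcb (by tauto)
        · exact X.ZcI ha1 hca hb1 hcb
      · intro t
        by_cases h1 : G.Adj j₀ t
        · by_cases h2 : G.Adj c t
          · by_cases h3 : G.Adj z t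
            · right; exact ⟨z, ⟨hz, Or.inl hcz⟩, h3.symm⟩
            · left; exact ⟨h1, Or.inr h3⟩
          · left; exact ⟨h1, Or.inl h2⟩
        · by_cases h2 : G.Adj c t
          · right; exact ⟨z, ⟨hz, Or.inl hcz⟩, (S2 z t hz hcz h1 h2).symm⟩
          · by_cases h3 : t = c
            · right; rw [h3]; exact ⟨w, ⟨hw, Or.inr hzw⟩, hcw⟩
            · right; exact ⟨z, ⟨hz, Or.inl hcz⟩, X.JZ h1 h2 h3 hz⟩
    refine ⟨hE, ?_⟩
    apply radj hE (X.minM3 hz hcz) c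
    · left; rfl
    · exact fun h => X.jc h.1
    · rintro t (rfl | ⟨h1, h2⟩) ht
      · exact absurd rfl ht
      · exact ⟨h1, Or.inl h2⟩
    · rintro t ⟨h1, h2⟩ ht
      by_contra hn
      exact ht (Or.inr ⟨h1, hn⟩)
  have facts_7 : Dom G {t | t = w ∨ (¬ G.Adj j₀ t ∧ G.Adj c t ∧ ¬ G.Adj w t)} →
      ∃ hN : MinDom G {t | t = w ∨ (¬ G.Adj j₀ t ∧ G.Adj c t ∧ ¬ G.Adj w t)},
        (R G).Adj ⟨_, X.minM2⟩ ⟨_, hN⟩ := by
    intro hd
    have hN : MinDom G {t | t = w ∨ (¬ G.Adj j₀ t ∧ G.Adj c t ∧ ¬ G.Adj w t)} := by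
      apply minDom_of_indep _ hd
      rintro a (rfl | ⟨ha1, ha2, ha3⟩) b (rfl | ⟨hb1, hb2, hb3⟩)
      · exact hirr _
      · exact hb3
      · exact fun h => ha3 h.symm
      · exact X.LL ha1 ha2 hb1 hb2
    refine ⟨hN, ?_⟩
    apply radj X.minM2 hN w
    · left; rfl
    · exact fun h => h.1 hw
    · rintro t (rfl | ⟨h1, h2, h3⟩) ht
      · exact absurd rfl ht
      · exact ⟨h1, h2.ne'⟩
    · rintro t ⟨h1, h2⟩ ht
      by_cases hct : G.Adj c t
      · by_contra hn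
        exact ht (Or.inr ⟨h1, hct, hn⟩)
      · exact (X.JZ h1 hct h2 hw).symm
  have not7 : ¬ Dom G {t | t = w ∨ (¬ G.Adj j₀ t ∧ G.Adj c t ∧ ¬ G.Adj w t)} →
      ∃ y, G.Adj j₀ y ∧ w ≠ y ∧ ¬ G.Adj y l₀ := by
    intro hd
    unfold Dom at hd
    push Not at hd
    obtain ⟨y, hyn, hyd⟩ := hd
    have h1 : ¬ G.Adj y w := hyd w (Or.inl rfl)
    have h2 : ¬ G.Adj y l₀ := hyd l₀ (Or.inr ⟨hjl, hcl, hwl⟩)
    have h3 : w ≠ y := fun h => hyn (Or.inl h.symm)
    refine ⟨y, ?_, h3, h2⟩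
    by_contra hj
    by_cases a1 : y = c
    · rw [a1] at h2; exact h2 hcl
    by_cases a2 : G.Adj c y
    · exact hyn (Or.inr ⟨hj, a2, fun h => h1 h.symm⟩)
    · exact h1 (X.JZ hj a2 a1 hw)
  have hcEb : c ∉ {t | t = w ∨ (G.Adj j₀ t ∧ ¬ G.Adj c t ∧ ¬ G.Adj w t)} := by
    rintro (h | ⟨h, _⟩)
    · exact hwc h.symm
    · exact X.jc h
  have hjEb : j₀ ∉ {t | t = w ∨ (G.Adj j₀ t ∧ ¬ G.Adj c t ∧ ¬ G.Adj w t)} := by
    rintro (h | ⟨h, _⟩)
    · rw [← h] at hw; exact hirr _ hw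
    · exact hirr _ h
  have hcEa : c ∉ {t | G.Adj j₀ t ∧ (¬ G.Adj c t ∨ ¬ G.Adj z t)} := fun h => X.jc h.1
  have hjEa : j₀ ∉ {t | G.Adj j₀ t ∧ (¬ G.Adj c t ∨ ¬ G.Adj z t)} := fun h => hirr _ h.1
  have hcN7 : c ∉ {t | t = w ∨ (¬ G.Adj j₀ t ∧ G.Adj c t ∧ ¬ G.Adj w t)} := by
    rintro (h | ⟨_, h, _⟩)
    · exact hwc h.symm
    · exact hirr _ h
  have hcN6 : c ∉ {t | (¬ G.Adj j₀ t ∧ G.Adj c t) ∨ (G.Adj j₀ t ∧ ¬ G.Adj t l₀)} := by
    rintro (⟨_, h⟩ | ⟨h, _⟩)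
    · exact hirr _ h
    · exact X.jc h
  by_cases h7 : Dom G {t | t = w ∨ (¬ G.Adj j₀ t ∧ G.Adj c t ∧ ¬ G.Adj w t)}
  · obtain ⟨hN, adj2N⟩ := facts_7 h7
    by_cases hb : Dom G {t | t = w ∨ (G.Adj j₀ t ∧ ¬ G.Adj c t ∧ ¬ G.Adj w t)}
    · obtain ⟨hE, adjE3⟩ := facts_b hb
      refine close _ _ hN hE adj2N ?_ adjE3 hcN7 hcEb hjEb
      by_cases ht : ∃ t, G.Adj j₀ t ∧ ¬ G.Adj c t ∧ ¬ G.Adj w t ∧ t ≠ z
      · obtain ⟨t, t1, t2, t3, t4⟩ := ht
        have huniq : ∀ l', ¬ G.Adj j₀ l' → G.Adj c l' → ¬ G.Adj w l' → l' = l₀ := by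
          intro l' a1 a2 a3
          by_contra hn
          have := X.crit.center (x := w) (a := z) (b := l') (b' := l₀) (d := t) (e := l₀)
            (fun h => hzw h.symm) a3 (S2 z l' hz hcz a1 a2) hwl hzl hn t3 hwl (S2 t l₀ t1 t2 hjl hcl)
          rcases this with h | h
          · exact t4 h
          · rw [h] at hcl; exact hcz hcl
        apply SimpleGraph.Adj.symm
        apply radj hE hN l₀
        · right; exact ⟨hjl, hcl, hwl⟩
        · rintro (h | ⟨h, _⟩)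
          · rw [← h] at hw; exact hjl hw
          · exact hjl h
        · rintro s (rfl | ⟨h1, h2, h3⟩) hs
          · left; rfl
          · exact absurd (huniq s h1 h2 h3) hs
        · rintro s (rfl | ⟨h1, h2, h3⟩) hs
          · exact absurd (Or.inl rfl) hs
          · exact (S2 s l₀ h1 h2 hjl hcl).symm
      · push Not at ht
        apply radj hN hE z
        · right; exact ⟨hz, hcz, fun h => hzw h.symm⟩
        · rintro (h | ⟨h, _⟩)
          · exact hwz h.symm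
          · exact h hz
        · rintro s (rfl | ⟨h1, h2, h3⟩) hs
          · left; rfl
          · exact absurd (ht s h1 h2 h3) hs
        · rintro s (rfl | ⟨h1, h2, h3⟩) hs
          · exact absurd (Or.inl rfl) hs
          · exact S2 z s hz hcz h1 h2
    · obtain ⟨w', a1, a2, a3, a4⟩ := notEb hb
      obtain ⟨WW, ZW, hE, adjE3⟩ := facts_a w' a1 a2 a3 a4
      refine close _ _ hN hE adj2N ?_ adjE3 hcN7 hcEa hjEa
      -- every element of `W` other than `w` is adjacent to `l₀`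
      have hWl : ∀ t, G.Adj j₀ t → G.Adj c t → ¬ G.Adj z t → t ≠ w →
          ∀ l', ¬ G.Adj j₀ l' → G.Adj c l' → ¬ G.Adj w l' → G.Adj t l' := by
        intro t t1 t2 t3 t4 l' b1 b2 b3
        rcases h7 t with h | ⟨s, hs, hts⟩
        · rcases h with h | ⟨h, _⟩
          · exact absurd h t4
          · exact absurd t1 h
        · rcases hs with rfl | ⟨s1, s2, s3⟩
          · exact absurd hts (WW t s t1 t2 t3 hw hcw hzw)
          · exact X.tw hw b1 b2 s1 s2 b3 s3 hts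
      have huniq : ∀ l', ¬ G.Adj j₀ l' → G.Adj c l' → ¬ G.Adj w l' → l' = l₀ := by
        intro l' b1 b2 b3
        by_contra hn
        have := X.crit.center (x := w) (a := z) (b := l') (b' := l₀) (d := w') (e := l₀)
          (fun h => hzw h.symm) b3 (S2 z l' hz hcz b1 b2) hwl hzl hn
          (WW w w' hw hcw hzw a1 a2 a3) hwl (hWl w' a1 a2 a3 a4 l₀ hjl hcl hwl)
        rcases this with h | h
        · rw [h] at a2; exact hcz a2
        · rw [h] at hcl; exact hcz hcl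
      apply SimpleGraph.Adj.symm
      apply radj hE hN l₀
      · right; exact ⟨hjl, hcl, hwl⟩
      · exact fun h => hjl h.1
      · rintro s (rfl | ⟨h1, h2, h3⟩) hs
        · exact ⟨hw, Or.inr hzw⟩
        · exact absurd (huniq s h1 h2 h3) hs
      · rintro s ⟨h1, h2⟩ hs
        by_cases hcs : G.Adj c s
        · exact (hWl s h1 hcs (by tauto) (fun h => hs (Or.inl h)) l₀ hjl hcl hwl).symm
        · exact (S2 s l₀ h1 hcs hjl hcl).symm
  · obtain ⟨y, hy, hwy, hyl⟩ := not7 h7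
    have hN := X.minM6 hw hy hwy hjl hcl hwl hyl
    have adj2N := (X.adj26 hw hy hwy hjl hcl hwl hyl).symm
    have ZLI : ∀ a b, G.Adj j₀ a → ¬ G.Adj a l₀ → G.Adj j₀ b → ¬ G.Adj b l₀ → ¬ G.Adj a b := by
      intro a b b1 b2 b3 b4 h
      rcases X.cen hw hy hwy hjl hwl hyl (fun h => b2 h.symm) (fun h => b4 h.symm) h with h | h
      · rw [h] at b1; exact hirr _ b1
      · rw [h] at b3; exact hirr _ b3
    have nLw : ∀ l', ¬ G.Adj j₀ l' → G.Adj c l' → ¬ G.Adj w l' := fun l' b1 b2 =>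
      X.noLz hw hy hwy hjl hcl hwl hyl b1 b2
    by_cases hb : Dom G {t | t = w ∨ (G.Adj j₀ t ∧ ¬ G.Adj c t ∧ ¬ G.Adj w t)}
    · obtain ⟨hE, adjE3⟩ := facts_b hb
      refine close _ _ hN hE adj2N ?_ adjE3 hcN6 hcEb hjEb
      -- elements of `ZL` other than `w` are adjacent to some `t ∈ Zc \ N(w)`
      have hdy : ∀ s, G.Adj j₀ s → ¬ G.Adj s l₀ → s ≠ w →
          ∃ t, G.Adj j₀ t ∧ ¬ G.Adj c t ∧ ¬ G.Adj w t ∧ G.Adj s t := by
        intro s s1 s2 s3
        rcases hb s with h | ⟨t, ht, hst⟩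
        · rcases h with h | ⟨h1, h2, h3⟩
          · exact absurd h s3
          · exact absurd (S2 s l₀ h1 h2 hjl hcl) s2
        · rcases ht with rfl | ⟨t1, t2, t3⟩
          · exact absurd hst (ZLI s t s1 s2 hw hwl)
          · exact ⟨t, t1, t2, t3, hst⟩
      have huniq : ∀ t, G.Adj j₀ t → ¬ G.Adj c t → ¬ G.Adj w t → t = z := by
        intro t t1 t2 t3
        by_contra hn
        obtain ⟨t', t'1, t'2, t'3, hyt'⟩ := hdy y hy hyl hwy.symm
        have := X.crit.center (x := w) (a := l₀) (b := z) (b' := t) (d := y) (e := t')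
          hwl (fun h => hzw h.symm) hzl.symm t3 (S2 t l₀ t1 t2 hjl hcl).symm (fun h => hn h.symm)
          (ZLI w y hw hwl hy hyl) t'3 hyt'
        rcases this with h | h
        · rw [h] at hy; exact hjl hy
        · rw [h] at t'1; exact hjl t'1
      apply radj hN hE z
      · right; exact ⟨hz, hcz, fun h => hzw h.symm⟩
      · rintro (⟨h, _⟩ | ⟨_, h⟩)
        · exact h hz
        · exact h hzl
      · rintro s (rfl | ⟨h1, h2, h3⟩) hs
        · right; exact ⟨hw, hwl⟩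
        · exact absurd (huniq s h1 h2 h3) hs
      · rintro s (⟨h1, h2⟩ | ⟨h1, h2⟩) hs
        · exact S2 z s hz hcz h1 h2
        · have hsw : s ≠ w := fun h => hs (Or.inl h)
          obtain ⟨t, t1, t2, t3, hst⟩ := hdy s h1 h2 hsw
          rw [huniq t t1 t2 t3] at hst
          exact hst.symm
    · obtain ⟨w', a1, a2, a3, a4⟩ := notEb hb
      obtain ⟨WW, ZW, hE, adjE3⟩ := facts_a w' a1 a2 a3 a4
      refine close _ _ hN hE adj2N ?_ adjE3 hcN6 hcEa hjEa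
      by_cases hA : (∀ t, G.Adj j₀ t → ¬ G.Adj t l₀ → ¬ G.Adj z t) ∧
          (∀ l', ¬ G.Adj j₀ l' → G.Adj c l' → l' = l₀)
      · obtain ⟨hA1, hA2⟩ := hA
        apply SimpleGraph.Adj.symm
        apply radj hE hN l₀
        · left; exact ⟨hjl, hcl⟩
        · exact fun h => hjl h.1
        · rintro s (⟨h1, h2⟩ | ⟨h1, h2⟩) hs
          · exact absurd (hA2 s h1 h2) hs
          · exact ⟨h1, Or.inr (hA1 s h1 h2)⟩
        · rintro s ⟨h1, h2⟩ hs
          by_contra hn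
          exact hs (Or.inr ⟨h1, fun h => hn h.symm⟩)
      · have hcenz : ∀ d e, ¬ G.Adj w d → ¬ G.Adj w e → G.Adj d e → d = z ∨ e = z := by
          intro d e hd he hde
          by_cases h1 : ∀ t, G.Adj j₀ t → ¬ G.Adj t l₀ → ¬ G.Adj z t
          · have h2 : ¬ ∀ l', ¬ G.Adj j₀ l' → G.Adj c l' → l' = l₀ := fun h => hA ⟨h1, h⟩
            push Not at h2
            obtain ⟨l', b1, b2, b3⟩ := h2
            exact X.crit.center (x := w) (a := z) (b := l') (b' := l₀) (d := d) (e := e)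
              (fun h => hzw h.symm) (nLw l' b1 b2) (S2 z l' hz hcz b1 b2) hwl hzl b3 hd he hde
          · push Not at h1
            obtain ⟨t, t1, t2, t3⟩ := h1
            exact X.crit.center (x := w) (a := z) (b := t) (b' := l₀) (d := d) (e := e)
              (fun h => hzw h.symm) (ZLI w t hw hwl t1 t2) t3 hwl hzl
              (fun h => hjl (h ▸ t1)) hd he hde
        have hlz : l₀ ≠ z := fun h => hjl (h ▸ hz)
        apply radj hN hE z
        · exact ⟨hz, Or.inl hcz⟩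
        · rintro (⟨h, _⟩ | ⟨_, h⟩)
          · exact h hz
          · exact h hzl
        · rintro s ⟨h1, h2⟩ hs
          by_cases hcs : G.Adj c s
          · right
            refine ⟨h1, fun h => ?_⟩
            rcases hcenz s l₀ (WW w s hw hcw hzw h1 hcs (by tauto)) hwl h with h | h
            · exact hs h
            · exact hlz h
          · exfalso
            rcases hcenz s l₀ (fun h => ZW s w h1 hcs hw hcw hzw h.symm) hwl
              (S2 s l₀ h1 hcs hjl hcl) with h | h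
            · exact hs h
            · exact hlz h
        · rintro s (⟨h1, h2⟩ | ⟨h1, h2⟩) hs
          · exact S2 z s hz hcz h1 h2
          · by_contra hn
            exact hs ⟨h1, Or.inr hn⟩

end Ctx

end Pool.Agent.R525.MDR
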