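import Mathlib

/-!
Minimal dominating sets of a graph and the reconfiguration graph on them.
-/

namespace Pool.Agent.R525.MDR

open SimpleGraph

variable {V : Type*}

/-- `D` is a dominating set of `G`: every vertex is in `D` or has a neighbour in `D`. -/
def Dom (G : SimpleGraph V) (D : Set V) : Prop := ∀ v, v ∈ D ∨ ∃ w ∈ D, G.Adj v w

/-- `D` is a minimal dominating set: it is dominating, and `D \ {v}` is not, for each `v ∈ D`. -/
def MinDom (G : SimpleGraph V) (D : Set V) : Prop := Dom G D ∧ ∀ v ∈ D, ¬ Dom G (D \ {v})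

/-- The type of minimal dominating sets of `G`. -/
abbrev MDS (G : SimpleGraph V) : Type _ := {D : Set V // MinDom G D}

/-- The reconfiguration graph: two minimal dominating sets are adjacent if one arises from the
other by replacing a single vertex `v` with some of its neighbours, or the reverse. -/
def R (G : SimpleGraph V) : SimpleGraph (MDS G) where
  Adj M₁ M₂ := ∃ v : V,
    (M₂.1 \ M₁.1 = {v} ∧ M₁.1 \ M₂.1 ⊆ G.neighborSet v) ∨
    (M₁.1 \ M₂.1 = {v} ∧ M₂.1 \ M₁.1 ⊆ G.neighborSet v)
  symm := ⟨fun M₁ M₂ h => by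
    obtain ⟨v, h | h⟩ := h
    · exact ⟨v, Or.inr h⟩
    · exact ⟨v, Or.inl h⟩⟩
  loopless := ⟨fun M h => by
    obtain ⟨v, h | h⟩ := h <;>
    · have := h.1
      rw [Set.sdiff_self] at this
      exact (Set.singleton_ne_empty v) this.symm⟩

/-- `R G` has a cycle of length at most 5. -/
def ShortCycle (G : SimpleGraph V) : Prop :=
  ∃ (M : MDS G) (p : (R G).Walk M M), p.IsCycle ∧ p.length ≤ 5

/-- All edges of `G` share a vertex (a star plus isolated vertices), or there is no edge. -/
def SL (G : SimpleGraph V) : Prop :=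
  (∀ a b, ¬ G.Adj a b) ∨ ∃ c, ∀ a b, G.Adj a b → a = c ∨ b = c

end Pool.Agent.R525.MDR
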