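import Pool.Agent.R525.MDR.CaseIIc

namespace Pool.Agent.R525.MDR

open SimpleGraph

universe u

variable {V : Type u} {G : SimpleGraph V}

theorem caseII (hcrit : Crit G)
    (hnd : ∀ u v, G.Adj u v → ∃ w, w ≠ u ∧ w ≠ v ∧ ¬ G.Adj u w ∧ ¬ G.Adj v w)
    (hniso : ∀ x, ∃ y, G.Adj x y) (he : ∃ u v, G.Adj u v) : ShortCycle G := by
  have hirr : ∀ a, ¬ G.Adj a a := fun a => G.loopless.irrefl a
  obtain ⟨u, v, huv⟩ := he
  obtain ⟨j₀, h1, h2, h3, h4⟩ := hnd u v huv
  obtain ⟨c, hc⟩ := hcrit j₀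
  obtain ⟨l₀, hcl, hjc, hjl⟩ : ∃ l, G.Adj c l ∧ ¬ G.Adj j₀ c ∧ ¬ G.Adj j₀ l := by
    rcases hc u v (fun h => h3 h.symm) (fun h => h4 h.symm) huv with rfl | rfl
    · exact ⟨v, huv, fun h => h3 h.symm, fun h => h4 h.symm⟩
    · exact ⟨u, huv.symm, fun h => h4 h.symm, fun h => h3 h.symm⟩
  have hnc : j₀ ≠ c := by rintro rfl; exact hjl hcl
  have X : Ctx G j₀ c l₀ := ⟨hcrit, hc, hcl, hjc, hjl, hnc⟩
  -- some neighbour of `j₀` is not adjacent to `c`
  obtain ⟨z, hz, hcz⟩ : ∃ z, G.Adj j₀ z ∧ ¬ G.Adj c z := by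
    by_contra hcon
    push Not at hcon
    obtain ⟨z, hz⟩ := hniso j₀
    obtain ⟨w, w1, w2, w3, w4⟩ := hnd c z (hcon z hz)
    by_cases hjw : G.Adj j₀ w
    · exact w3 (hcon w hjw)
    · exact w4 (X.JZ hjw w3 w1 hz).symm
  by_cases hS1 : ∃ z l, G.Adj j₀ z ∧ ¬ G.Adj c z ∧ ¬ G.Adj j₀ l ∧ G.Adj c l ∧ ¬ G.Adj z l
  · obtain ⟨z, l, a1, a2, a3, a4, a5⟩ := hS1
    exact X.caseS1 a1 a2 a3 a4 a5
  · push Not at hS1
    have S2 : ∀ z l, G.Adj j₀ z → ¬ G.Adj c z → ¬ G.Adj j₀ l → G.Adj c l → G.Adj z l :=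
      fun z l a1 a2 a3 a4 => hS1 z l a1 a2 a3 a4
    obtain ⟨w, w1, w2, w3, w4⟩ := hnd z l₀ (S2 z l₀ hz hcz hjl hcl)
    have hwc : w ≠ c := by rintro rfl; exact w4 hcl.symm
    have hjw : G.Adj j₀ w := by
      by_contra hjw
      by_cases hcw : G.Adj c w
      · exact w3 (S2 z w hz hcz hjw hcw)
      · exact w3 (X.JZ hjw hcw hwc hz).symm
    have hcw : G.Adj c w := by
      by_contra hcw
      exact w4 (S2 w l₀ hjw hcw hjl hcl).symm
    exact X.caseS2 hz hcz S2 hjw hcw w3 (fun h => w4 h.symm)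

theorem minDom_singleton {x : V} (hx : ∀ w, w ≠ x → G.Adj x w) : MinDom G {x} := by
  apply minDom_of_indep
  · rintro a rfl b rfl
    exact G.loopless.irrefl _
  · intro w
    by_cases h : w = x
    · left; exact h
    · right; exact ⟨x, rfl, (hx w h).symm⟩

theorem radj_singleton {x : V} (hx : ∀ w, w ≠ x → G.Adj x w) {M : Set V} (hM : MinDom G M)
    (hxM : x ∉ M) : (R G).Adj ⟨M, hM⟩ ⟨{x}, minDom_singleton hx⟩ := by
  apply radj hM (minDom_singleton hx) x
  · rfl
  · exact hxM
  · intro w hw hne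
    exact absurd hw hne
  · intro w _ hw
    exact hx w hw

theorem crit_case [Finite V] (hcrit : Crit G) (hns : ¬ SL G) (hniso : ∀ x, ∃ y, G.Adj x y) :
    ShortCycle G := by
  have hirr : ∀ a, ¬ G.Adj a a := fun a => G.loopless.irrefl a
  unfold SL at hns
  push Not at hns
  obtain ⟨⟨e₁, e₂, hee⟩, hns⟩ := hns
  by_cases hU : ∃ x, ∀ w, w ≠ x → G.Adj x w
  · obtain ⟨x, hx⟩ := hU
    obtain ⟨a, b, hab, hax, hbx⟩ := hns x
    by_cases hU2 : ∃ y, y ≠ x ∧ ∀ w, w ≠ y → G.Adj y w
    · obtain ⟨y, hyx, hy⟩ := hU2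
      obtain ⟨w, hwx, hwy⟩ : ∃ w, w ≠ x ∧ w ≠ y := by
        by_cases h : a = y
        · exact ⟨b, hbx, fun h' => hab.ne (h.trans h'.symm)⟩
        · exact ⟨a, hax, h⟩
      obtain ⟨I, hwI, hind, hdom⟩ := exists_maxIndep (G := G) {w} (by
        rintro a rfl b rfl; exact hirr _)
      have hwI' : w ∈ I := hwI rfl
      have hI := minDom_of_indep hind hdom
      have hxI : x ∉ I := fun h => hind x h w hwI' (hx w hwx)
      have hyI : y ∉ I := fun h => hind y h w hwI' (hy w hwy)
      refine cyc3 (radj_singleton hx hI hxI)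
        (radj_singleton hy (minDom_singleton hx) (fun h => hyx h))
        (radj_singleton hy hI hyI).symm
    · push Not at hU2
      obtain ⟨p, hpb, hbp⟩ := hU2 b hbx
      obtain ⟨q, hqa, haq⟩ := hU2 a hax
      by_cases hdom : ∀ w, w = a ∨ w = b ∨ G.Adj a w ∨ G.Adj b w
      · exact dom_edge hcrit hab hdom haq hqa hbp hpb
      · push Not at hdom
        obtain ⟨w, w1, w2, w3, w4⟩ := hdom
        obtain ⟨M₁, M₂, h₁, h₂, b1, b2, b3, b4, hadj⟩ := exists_pair hcrit (x := w) (a := a) (b := b)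
          (fun h => w3 h.symm) (fun h => w4 h.symm) hab
        have hwx : w ≠ x := by rintro rfl; exact w3 (hx a hax).symm
        have hx1 : x ∉ M₁ := fun h => b3 x h (hx w hwx).symm
        have hx2 : x ∉ M₂ := fun h => b4 x h (hx w hwx).symm
        exact cyc3 hadj (radj_singleton hx h₂ hx2) (radj_singleton hx h₁ hx1).symm
  · push Not at hU
    by_cases hde : ∃ u v, G.Adj u v ∧ ∀ w, w = u ∨ w = v ∨ G.Adj u w ∨ G.Adj v w
    · obtain ⟨u, v, huv, hdom⟩ := hde
      obtain ⟨p, hpv, hvp⟩ := hU v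
      obtain ⟨q, hqu, huq⟩ := hU u
      exact dom_edge hcrit huv hdom huq hqu hvp hpv
    · push Not at hde
      exact caseII hcrit (fun u v huv => by
        obtain ⟨w, a1, a2, a3, a4⟩ := hde u v huv
        exact ⟨w, a1, a2, a3, a4⟩) hniso ⟨e₁, e₂, hee⟩

theorem main_aux : ∀ (n : ℕ) (V : Type u) [Finite V] (_ : Nat.card V = n) (G : SimpleGraph V),
    ¬ SL G → ShortCycle G := by
  intro n
  induction n using Nat.strong_induction_on with
  | _ n ih =>
    intro V _ hcard G hns
    by_cases h : ∃ x, ¬ SL (Del G x)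
    · obtain ⟨x, hx⟩ := h
      apply ShortCycle.lift x
      apply ih _ _ _ rfl _ hx
      rw [← hcard]
      apply Finite.card_subtype_lt (x := x)
      simp
    · push Not at h
      have hcrit : Crit G := by
        intro x
        rcases h x with h1 | ⟨c, hc⟩
        · refine ⟨x, fun a b ha hb hab => ?_⟩
          by_cases hax : a = x
          · left; exact hax
          by_cases hbx : b = x
          · right; exact hbx
          exact absurd hab (h1 ⟨a, hax, ha⟩ ⟨b, hbx, hb⟩)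
        · refine ⟨c.1, fun a b ha hb hab => ?_⟩
          have hax : a ≠ x := by rintro rfl; exact hb hab
          have hbx : b ≠ x := by rintro rfl; exact ha hab.symm
          rcases hc ⟨a, hax, ha⟩ ⟨b, hbx, hb⟩ hab with h | h
          · left; exact congrArg Subtype.val h
          · right; exact congrArg Subtype.val h
      apply crit_case hcrit hns
      intro x
      by_contra hx
      push Not at hx
      apply hns
      rcases h x with h1 | ⟨c, hc⟩
      · left
        intro a b hab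
        have hax : a ≠ x := by rintro rfl; exact hx _ hab
        have hbx : b ≠ x := by rintro rfl; exact hx _ hab.symm
        exact h1 ⟨a, hax, hx a⟩ ⟨b, hbx, hx b⟩ hab
      · right
        refine ⟨c.1, fun a b hab => ?_⟩
        have hax : a ≠ x := by rintro rfl; exact hx _ hab
        have hbx : b ≠ x := by rintro rfl; exact hx _ hab.symm
        rcases hc ⟨a, hax, hx a⟩ ⟨b, hbx, hx b⟩ hab with h | h
        · left; exact congrArg Subtype.val h
        · right; exact congrArg Subtype.val h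

/-- If the edges of the finite graph `G` do not all share a vertex (and `G` has an edge) then the
reconfiguration graph of minimal dominating sets has a cycle of length at most 5. -/
theorem main [Finite V] (G : SimpleGraph V) (hns : ¬ SL G) : ShortCycle G :=
  main_aux _ V rfl G hns

end Pool.Agent.R525.MDR
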