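import Pool.Agent.R525.MDR.Main

namespace Pool.Agent.R525.MDR

open SimpleGraph

universe u

variable {V : Type u} {G : SimpleGraph V}

/-- In a star plus isolated vertices there are at most two minimal dominating sets. -/
theorem two_sets {c : V} (hc : ∀ a b, G.Adj a b → a = c ∨ b = c) (M : MDS G) :
    M.1 = {w | ¬ G.Adj c w} ∨ M.1 = {w | w ≠ c} := by
  have hirr : ∀ a, ¬ G.Adj a a := fun a => G.loopless.irrefl a
  -- vertices not adjacent to `c` and different from `c` are isolated
  have hiso : ∀ w x, w ≠ c → ¬ G.Adj c w → ¬ G.Adj w x := by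
    intro w x h1 h2 h3
    rcases hc w x h3 with h | h
    · exact h1 h
    · rw [h] at h3; exact h2 h3.symm
  by_cases hcM : c ∈ M.1
  · left
    ext w
    constructor
    · intro hw hcw
      apply M.2.2 w hw
      intro x
      rcases M.2.1 x with h | ⟨y, hy, hxy⟩
      · by_cases hxw : x = w
        · right; rw [hxw]; exact ⟨c, ⟨hcM, fun h => hirr c (by rw [Set.mem_singleton_iff.1 h] at hcw ⊢; exact hcw)⟩, hcw.symm⟩
        · left; exact ⟨h, hxw⟩
      · by_cases hyw : y = w
        · rcases hc x y hxy with h | h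
          · left; rw [h]; exact ⟨hcM, fun h' => hirr c (by rw [Set.mem_singleton_iff.1 h'] at hcw ⊢; exact hcw)⟩
          · rw [← h, hyw] at hcw; exact absurd hcw (hirr w)
        · right; exact ⟨y, ⟨hy, hyw⟩, hxy⟩
    · intro hw
      by_cases hwc : w = c
      · rw [hwc]; exact hcM
      · rcases M.2.1 w with h | ⟨y, hy, hwy⟩
        · exact h
        · exact absurd hwy (hiso w y hwc hw)
  · right
    ext w
    constructor
    · rintro hw rfl
      exact hcM hw
    · intro hw
      rcases M.2.1 w with h | ⟨y, hy, hwy⟩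
      · exact h
      · rcases hc w y hwy with h | h
        · exact absurd h hw
        · rw [h] at hy; exact absurd hy hcM

theorem acyclic_of_star {c : V} (hc : ∀ a b, G.Adj a b → a = c ∨ b = c) : (R G).IsAcyclic := by
  intro M p hp
  have h3 := hp.three_le_length
  have hnd := hp.support_nodup
  have hlen : p.support.tail.length = p.length := by simp
  match hL : p.support.tail with
  | [] => rw [hL] at hlen; simp at hlen; omega
  | [_] => rw [hL] at hlen; simp at hlen; omega
  | [_, _] => rw [hL] at hlen; simp at hlen; omega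
  | x :: y :: z :: rest =>
    rw [hL] at hnd
    simp only [List.nodup_cons, List.mem_cons, not_or] at hnd
    obtain ⟨⟨hxy, hxz, _⟩, ⟨hyz, _⟩, _⟩ := hnd
    have key : ∀ a b : MDS G, a.1 = b.1 → a = b := fun a b h => Subtype.ext h
    rcases two_sets hc x with h1 | h1 <;> rcases two_sets hc y with h2 | h2 <;>
      rcases two_sets hc z with h3 | h3
    all_goals
      first
      | exact hxy (key _ _ (h1.trans h2.symm))
      | exact hxz (key _ _ (h1.trans h3.symm))
      | exact hyz (key _ _ (h2.trans h3.symm))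

theorem adj_of_star {c : V} {M N : MDS G}
    (hM : M.1 = {w | ¬ G.Adj c w}) (hN : N.1 = {w | w ≠ c}) : (R G).Adj N M := by
  have := radj (G := G) N.2 M.2 c (by rw [hM]; exact G.loopless.irrefl _)
    (by rw [hN]; exact fun h => h rfl)
    (by rw [hN, hM]; exact fun w _ h => h)
    (by
      rw [hN, hM]
      intro w _ hw
      by_contra h
      exact hw h)
  exact this

theorem connected_of_star [Finite V] {c : V} (hc : ∀ a b, G.Adj a b → a = c ∨ b = c) :
    (R G).Connected := by
  have hne : Nonempty (MDS G) := by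
    obtain ⟨I, _, hind, hdom⟩ := exists_maxIndep (G := G) ∅ (by simp)
    exact ⟨⟨I, minDom_of_indep hind hdom⟩⟩
  rw [connected_iff]
  refine ⟨fun M N => ?_, hne⟩
  by_cases hMN : M = N
  · rw [hMN]
  · rcases two_sets hc M with h1 | h1 <;> rcases two_sets hc N with h2 | h2
    · exact absurd (Subtype.ext (h1.trans h2.symm)) hMN
    · exact (adj_of_star h1 h2).symm.reachable
    · exact (adj_of_star h2 h1).reachable
    · exact absurd (Subtype.ext (h1.trans h2.symm)) hMN

theorem star_of_acyclic [Finite V] [Nonempty V] (h : (R G).IsAcyclic) :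
    ∃ c, ∀ a b, G.Adj a b → a = c ∨ b = c := by
  by_contra hn
  have hns : ¬ SL G := by
    rintro (h1 | h1)
    · exact hn ⟨Classical.arbitrary V, fun a b hab => absurd hab (h1 a b)⟩
    · exact hn h1
  obtain ⟨M, p, hp, _⟩ := main G hns
  exact h p hp

/-- A graph in which all edges contain `c` is an edgeless graph plus a star. -/
theorem iso_of_star [Finite V] {c : V} (hc : ∀ a b, G.Adj a b → a = c ∨ b = c) :
    ∃ n m : ℕ, Nonempty (G ≃g ((⊥ : SimpleGraph (Fin n)) ⊕g completeBipartiteGraph (Fin 1) (Fin m))) := by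
  classical
  have hirr : ∀ a, ¬ G.Adj a a := fun a => G.loopless.irrefl a
  obtain ⟨n, ⟨e₁⟩⟩ := Finite.exists_equiv_fin {w : V // w ≠ c ∧ ¬ G.Adj c w}
  obtain ⟨m, ⟨e₂⟩⟩ := Finite.exists_equiv_fin {w : V // G.Adj c w}
  refine ⟨n, m, ⟨?_⟩⟩
  let g : Fin n ⊕ (Fin 1 ⊕ Fin m) → V
    | .inl i => (e₁.symm i).1
    | .inr (.inl _) => c
    | .inr (.inr j) => (e₂.symm j).1
  have hg : Function.Bijective g := by
    constructor
    · rintro (i | i | i) (j | j | j) hij
      · have : e₁.symm i = e₁.symm j := Subtype.ext hij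
        rw [e₁.symm.injective this]
      · exact absurd hij (e₁.symm i).2.1
      · exact absurd (e₂.symm j).2 (by have := (e₁.symm i).2.2; rwa [show (e₁.symm i).1 = (e₂.symm j).1 from hij] at this)
      · exact absurd hij.symm (e₁.symm j).2.1
      · rw [Subsingleton.elim i j]
      · exact absurd hij (e₂.symm j).2.ne
      · exact absurd (e₂.symm i).2 (by have := (e₁.symm j).2.2; rwa [← show (e₂.symm i).1 = (e₁.symm j).1 from hij] at this)
      · exact absurd hij.symm (e₂.symm i).2.ne
      · have : e₂.symm i = e₂.symm j := Subtype.ext hij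
        rw [e₂.symm.injective this]
    · intro w
      by_cases h1 : w = c
      · exact ⟨.inr (.inl 0), h1.symm⟩
      by_cases h2 : G.Adj c w
      · exact ⟨.inr (.inr (e₂ ⟨w, h2⟩)), by simp [g]⟩
      · exact ⟨.inl (e₁ ⟨w, h1, h2⟩), by simp [g]⟩
  have hn1 : ∀ (w : {w : V // w ≠ c ∧ ¬ G.Adj c w}) x, ¬ G.Adj w.1 x := by
    intro w x h
    rcases hc _ _ h with h' | h'
    · exact w.2.1 h'
    · rw [h'] at h; exact w.2.2 h.symm
  have hn2 : ∀ (w w' : {w : V // G.Adj c w}), ¬ G.Adj w.1 w'.1 := by
    intro w w' h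
    rcases hc _ _ h with h' | h'
    · exact w.2.ne h'.symm
    · exact w'.2.ne h'.symm
  refine SimpleGraph.Iso.symm
    { toEquiv := Equiv.ofBijective g hg
      map_rel_iff' := ?_ }
  rintro (i | i | i) (j | j | j)
  · simpa [g] using hn1 _ _
  · simpa [g] using hn1 _ _
  · simpa [g] using hn1 _ _
  · simpa [g] using fun h : G.Adj c (e₁.symm j).1 => hn1 _ _ h.symm
  · simp [g]
  · simpa [g] using (e₂.symm j).2
  · simpa [g] using fun h : G.Adj (e₂.symm i).1 (e₁.symm j).1 => hn1 _ _ h.symm
  · simpa [g] using (e₂.symm i).2.symm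
  · simpa [g] using hn2 _ _

theorem star_of_iso {n m : ℕ}
    (φ : G ≃g ((⊥ : SimpleGraph (Fin n)) ⊕g completeBipartiteGraph (Fin 1) (Fin m))) :
    ∃ c, ∀ a b, G.Adj a b → a = c ∨ b = c := by
  refine ⟨φ.symm (.inr (.inl 0)), fun a b hab => ?_⟩
  have h := φ.map_rel_iff.2 hab
  have key : φ a = .inr (.inl 0) ∨ φ b = .inr (.inl 0) := by
    match ha : φ a, hb : φ b with
    | .inl i, .inl j => rw [ha, hb] at h; simp at h
    | .inl i, .inr j => rw [ha, hb] at h; simp at h
    | .inr i, .inl j => rw [ha, hb] at h; simp at h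
    | .inr (.inl i), .inr j => left; rw [Subsingleton.elim i 0]
    | .inr (.inr i), .inr (.inl j) => right; rw [Subsingleton.elim j 0]
    | .inr (.inr i), .inr (.inr j) => rw [ha, hb] at h; simp at h
  rcases key with h | h
  · left; rw [← h]; simp
  · right; rw [← h]; simp

end Pool.Agent.R525.MDR
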